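import Mathlib
import Pool.Agent.R175.Disk

/-!
# The hexagon `P`: a `3 × 4` rectangle with a triangular bump on one half of a long side
-/

set_option autoImplicit false

namespace Pool.Agent.R175.Hexa

open Set Complex ComplexConjugate Pool.Agent.R175.Disk

/-- The rectangle. -/
def R : Set ℂ := {z | -3 ≤ z.re ∧ z.re ≤ 0 ∧ -2 ≤ z.im ∧ z.im ≤ 2}

/-- The bump. -/
def T : Set ℂ := {z | 0 ≤ z.re ∧ z.re ≤ z.im ∧ z.im ≤ 2 - z.re}

/-- The hexagon. -/
def P : Set ℂ := R ∪ T

theorem R_closed : IsClosed R := by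
  apply IsClosed.inter (isClosed_le continuous_const Complex.continuous_re)
  apply IsClosed.inter (isClosed_le Complex.continuous_re continuous_const)
  exact IsClosed.inter (isClosed_le continuous_const Complex.continuous_im)
    (isClosed_le Complex.continuous_im continuous_const)

theorem T_closed : IsClosed T := by
  apply IsClosed.inter (isClosed_le continuous_const Complex.continuous_re)
  exact IsClosed.inter (isClosed_le Complex.continuous_re Complex.continuous_im)
    (isClosed_le Complex.continuous_im (continuous_const.sub Complex.continuous_re))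

theorem P_closed : IsClosed P := R_closed.union T_closed

theorem P_bounded {z : ℂ} (hz : z ∈ P) : ‖z‖ ≤ 5 := by
  have h1 := Complex.norm_le_abs_re_add_abs_im z
  have h2 : |z.re| ≤ 3 := by
    rw [abs_le]
    rcases hz with ⟨a, b, c, d⟩ | ⟨a, b, c⟩
    · exact ⟨by linarith, by linarith⟩
    · exact ⟨by linarith, by linarith⟩
  have h3 : |z.im| ≤ 2 := by
    rw [abs_le]
    rcases hz with ⟨a, b, c, d⟩ | ⟨a, b, c⟩
    · exact ⟨by linarith, by linarith⟩
    · exact ⟨by linarith, by linarith⟩
  linarith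

theorem P_compact : IsCompact P := by
  refine Metric.isCompact_of_isClosed_isBounded P_closed ?_
  refine (Metric.isBounded_closedBall (x := (0 : ℂ)) (r := 5)).subset ?_
  intro z hz
  rw [mem_closedBall_zero_iff]
  exact P_bounded hz

theorem R_convex : Convex ℝ R := by
  intro z hz w hw a b ha hb hab
  obtain ⟨z1, z2, z3, z4⟩ := hz
  obtain ⟨w1, w2, w3, w4⟩ := hw
  have e : b = 1 - a := by linarith
  subst e
  refine ⟨?_, ?_, ?_, ?_⟩ <;> simp <;> nlinarith

theorem T_convex : Convex ℝ T := by
  intro z hz w hw a b ha hb hab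
  obtain ⟨z1, z2, z3⟩ := hz
  obtain ⟨w1, w2, w3⟩ := hw
  have e : b = 1 - a := by linarith
  subst e
  refine ⟨?_, ?_, ?_⟩ <;> simp <;> nlinarith

theorem int_R {z : ℂ} (h1 : -3 < z.re) (h2 : z.re < 0) (h3 : -2 < z.im) (h4 : z.im < 2) :
    z ∈ interior R := by
  rw [mem_interior]
  refine ⟨{z | -3 < z.re ∧ z.re < 0 ∧ -2 < z.im ∧ z.im < 2}, ?_, ?_, h1, h2, h3, h4⟩
  · rintro w ⟨a, b, c, d⟩
    exact ⟨a.le, b.le, c.le, d.le⟩
  · apply IsOpen.inter (isOpen_lt continuous_const Complex.continuous_re)
    apply IsOpen.inter (isOpen_lt Complex.continuous_re continuous_const)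
    exact IsOpen.inter (isOpen_lt continuous_const Complex.continuous_im)
      (isOpen_lt Complex.continuous_im continuous_const)

theorem int_T {z : ℂ} (h1 : 0 < z.re) (h2 : z.re < z.im) (h3 : z.im < 2 - z.re) :
    z ∈ interior T := by
  rw [mem_interior]
  refine ⟨{z | 0 < z.re ∧ z.re < z.im ∧ z.im < 2 - z.re}, ?_, ?_, h1, h2, h3⟩
  · rintro w ⟨a, b, c⟩
    exact ⟨a.le, b.le, c.le⟩
  · apply IsOpen.inter (isOpen_lt continuous_const Complex.continuous_re)
    exact IsOpen.inter (isOpen_lt Complex.continuous_re Complex.continuous_im)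
      (isOpen_lt Complex.continuous_im (continuous_const.sub Complex.continuous_re))

theorem intP_R {z : ℂ} (h1 : -3 < z.re) (h2 : z.re < 0) (h3 : -2 < z.im) (h4 : z.im < 2) :
    z ∈ interior P := interior_mono subset_union_left (int_R h1 h2 h3 h4)

theorem intP_T {z : ℂ} (h1 : 0 < z.re) (h2 : z.re < z.im) (h3 : z.im < 2 - z.re) :
    z ∈ interior P := interior_mono subset_union_right (int_T h1 h2 h3)

theorem P_closure : closure (interior P) = P := by
  apply subset_antisymm
  · exact closure_minimal interior_subset P_closed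
  · rintro z (hz | hz)
    · have h1 : (interior R).Nonempty := ⟨⟨-1, 0⟩, int_R (by norm_num) (by norm_num) (by norm_num) (by norm_num)⟩
      have h2 := R_convex.closure_interior_eq_closure_of_nonempty_interior h1
      rw [R_closed.closure_eq] at h2
      rw [← h2] at hz
      exact closure_mono (interior_mono subset_union_left) hz
    · have h1 : (interior T).Nonempty := ⟨⟨1 / 2, 1⟩, int_T (by norm_num) (by norm_num) (by norm_num)⟩
      have h2 := T_convex.closure_interior_eq_closure_of_nonempty_interior h1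
      rw [T_closed.closure_eq] at h2
      rw [← h2] at hz
      exact closure_mono (interior_mono subset_union_right) hz

/-- A point of `P` that is not one of the five convex corners has a half-disk in `P`. -/
theorem loc {y : ℂ} (hy : y ∈ P) :
    (∃ n : ℂ, n ≠ 0 ∧ ∃ r > 0, ∀ d : ℂ, ‖d‖ < r → 0 < (d * conj n).re → y + d ∈ P) ∨
      y = ⟨1, 1⟩ ∨ y = ⟨0, 2⟩ ∨ y = ⟨-3, 2⟩ ∨ y = ⟨-3, -2⟩ ∨ y = ⟨0, -2⟩ := by
  have hre : ∀ d : ℂ, -‖d‖ ≤ d.re ∧ d.re ≤ ‖d‖ := fun d => abs_le.1 (Complex.abs_re_le_norm d)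
  have him : ∀ d : ℂ, -‖d‖ ≤ d.im ∧ d.im ≤ ‖d‖ := fun d => abs_le.1 (Complex.abs_im_le_norm d)
  by_cases hc1 : y = ⟨1, 1⟩
  · exact Or.inr (Or.inl hc1)
  by_cases hc2 : y = ⟨0, 2⟩
  · exact Or.inr (Or.inr (Or.inl hc2))
  by_cases hc3 : y = ⟨-3, 2⟩
  · exact Or.inr (Or.inr (Or.inr (Or.inl hc3)))
  by_cases hc4 : y = ⟨-3, -2⟩
  · exact Or.inr (Or.inr (Or.inr (Or.inr (Or.inl hc4))))
  by_cases hc5 : y = ⟨0, -2⟩
  · exact Or.inr (Or.inr (Or.inr (Or.inr (Or.inr hc5))))
  left
  rcases hy with ⟨a, b, c, d⟩ | ⟨a, b, c⟩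
  · -- in the rectangle
    rcases lt_or_eq_of_le b with hb | hb
    · rcases lt_or_eq_of_le a with ha | ha
      · rcases lt_or_eq_of_le d with hd | hd
        · refine ⟨I, I_ne_zero, min (min (y.re + 3) (-y.re)) (2 - y.im), ?_, ?_⟩
          · simp only [gt_iff_lt, lt_min_iff]
            exact ⟨⟨by linarith, by linarith⟩, by linarith⟩
          · intro e he hn
            simp only [lt_min_iff] at he
            simp at hn
            have h1 := hre e
            have h2 := him e
            left
            refine ⟨?_, ?_, ?_, ?_⟩ <;> simp <;> linarith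
        · refine ⟨-I, neg_ne_zero.2 I_ne_zero, min (min (y.re + 3) (-y.re)) 4, ?_, ?_⟩
          · simp only [gt_iff_lt, lt_min_iff]
            exact ⟨⟨by linarith, by linarith⟩, by norm_num⟩
          · intro e he hn
            simp only [lt_min_iff] at he
            simp at hn
            have h1 := hre e
            have h2 := him e
            left
            refine ⟨?_, ?_, ?_, ?_⟩ <;> simp <;> linarith
      · have hd : y.im < 2 := by
          rcases lt_or_eq_of_le d with h | h
          · exact h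
          · exact absurd (Complex.ext ha.symm h) hc3
        have hc : -2 < y.im := by
          rcases lt_or_eq_of_le c with h | h
          · exact h
          · exact absurd (Complex.ext ha.symm h.symm) hc4
        refine ⟨1, one_ne_zero, min (min (y.im + 2) (2 - y.im)) 3, ?_, ?_⟩
        · simp only [gt_iff_lt, lt_min_iff]
          exact ⟨⟨by linarith, by linarith⟩, by norm_num⟩
        · intro e he hn
          simp only [lt_min_iff] at he
          simp at hn
          have h1 := hre e
          have h2 := him e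
          left
          refine ⟨?_, ?_, ?_, ?_⟩ <;> simp <;> linarith
    · have hd : y.im < 2 := by
        rcases lt_or_eq_of_le d with h | h
        · exact h
        · exact absurd (Complex.ext hb h) hc2
      have hc : -2 < y.im := by
        rcases lt_or_eq_of_le c with h | h
        · exact h
        · exact absurd (Complex.ext hb h.symm) hc5
      refine ⟨-1, by norm_num, min (min (y.im + 2) (2 - y.im)) 3, ?_, ?_⟩
      · simp only [gt_iff_lt, lt_min_iff]
        exact ⟨⟨by linarith, by linarith⟩, by norm_num⟩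
      · intro e he hn
        simp only [lt_min_iff] at he
        simp at hn
        have h1 := hre e
        have h2 := him e
        left
        refine ⟨?_, ?_, ?_, ?_⟩ <;> simp <;> linarith
  · rcases lt_or_eq_of_le a with ha | ha
    · rcases lt_or_eq_of_le b with hb | hb
      · refine ⟨⟨-1, -1⟩, by intro h; have := congrArg Complex.re h; simp at this,
          min y.re ((y.im - y.re) / 2), ?_, ?_⟩
        · simp only [gt_iff_lt, lt_min_iff]
          exact ⟨by linarith, by linarith⟩
        · intro e he hn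
          simp only [lt_min_iff] at he
          simp at hn
          have h1 := hre e
          have h2 := him e
          right
          refine ⟨?_, ?_, ?_⟩ <;> simp <;> linarith
      · have hc : y.re < 1 := by
          rcases lt_or_eq_of_le (show y.re ≤ 1 by linarith) with h | h
          · exact h
          · exact absurd (Complex.ext h (by rw [← hb, h])) hc1
        refine ⟨⟨-1, 1⟩, by intro h; have := congrArg Complex.re h; simp at this,
          min y.re (1 - y.re), ?_, ?_⟩
        · simp only [gt_iff_lt, lt_min_iff]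
          exact ⟨by linarith, by linarith⟩
        · intro e he hn
          simp only [lt_min_iff] at he
          simp at hn
          have h1 := hre e
          have h2 := him e
          right
          refine ⟨?_, ?_, ?_⟩ <;> simp <;> linarith
    · have hd : y.im < 2 := by
        rcases lt_or_eq_of_le (show y.im ≤ 2 by linarith) with h | h
        · exact h
        · exact absurd (Complex.ext ha.symm h) hc2
      refine ⟨-1, by norm_num, min (min (y.im + 2) (2 - y.im)) 3, ?_, ?_⟩
      · simp only [gt_iff_lt, lt_min_iff]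
        exact ⟨⟨by linarith, by linarith⟩, by norm_num⟩
      · intro e he hn
        simp only [lt_min_iff] at he
        simp at hn
        have h1 := hre e
        have h2 := him e
        left
        refine ⟨?_, ?_, ?_, ?_⟩ <;> simp <;> linarith

/-- The five convex corners with the directions of their sides. -/
def Corner (c A B : ℂ) : Prop :=
  (c = ⟨1, 1⟩ ∧ A = ⟨-1, 1⟩ ∧ B = ⟨-1, -1⟩) ∨ (c = ⟨0, 2⟩ ∧ A = ⟨-1, 0⟩ ∧ B = ⟨1, -1⟩) ∨
    (c = ⟨-3, 2⟩ ∧ A = ⟨0, -1⟩ ∧ B = ⟨1, 0⟩) ∨ (c = ⟨-3, -2⟩ ∧ A = ⟨1, 0⟩ ∧ B = ⟨0, 1⟩) ∨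
    (c = ⟨0, -2⟩ ∧ A = ⟨0, 1⟩ ∧ B = ⟨-1, 0⟩)

theorem corner_in {c A B : ℂ} (h : Corner c A B) {s t : ℝ} (hs : 0 ≤ s) (ht : 0 ≤ t) (hs1 : s ≤ 1 / 4)
    (ht1 : t ≤ 1 / 4) : c + s * A + t * B ∈ P := by
  rcases h with ⟨rfl, rfl, rfl⟩ | ⟨rfl, rfl, rfl⟩ | ⟨rfl, rfl, rfl⟩ | ⟨rfl, rfl, rfl⟩ | ⟨rfl, rfl, rfl⟩
  · right
    refine ⟨?_, ?_, ?_⟩ <;> simp <;> linarith
  · rcases le_total t s with h | h
    · left
      refine ⟨?_, ?_, ?_, ?_⟩ <;> simp <;> linarith
    · right
      refine ⟨?_, ?_, ?_⟩ <;> simp <;> linarith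
  · left
    refine ⟨?_, ?_, ?_, ?_⟩ <;> simp <;> linarith
  · left
    refine ⟨?_, ?_, ?_, ?_⟩ <;> simp <;> linarith
  · left
    refine ⟨?_, ?_, ?_, ?_⟩ <;> simp <;> linarith

/-- Near a right-angled corner the hexagon is a quadrant. -/
theorem corner_out {c A B : ℂ} (h : Corner c A B) (hc : c ≠ ⟨0, 2⟩) {z : ℂ} (hz : z ∈ P)
    (hd : dist z c < 1 / 4) : ∃ s t : ℝ, 0 ≤ s ∧ 0 ≤ t ∧ z = c + s * A + t * B := by
  have hd' : ‖z - c‖ ≤ 1 / 4 := by rw [← dist_eq_norm]; exact hd.le
  have hre := abs_le.1 ((Complex.abs_re_le_norm (z - c)).trans hd')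
  have him := abs_le.1 ((Complex.abs_im_le_norm (z - c)).trans hd')
  rw [Complex.sub_re] at hre
  rw [Complex.sub_im] at him
  rcases h with ⟨rfl, rfl, rfl⟩ | ⟨rfl, rfl, rfl⟩ | ⟨rfl, rfl, rfl⟩ | ⟨rfl, rfl, rfl⟩ | ⟨rfl, rfl, rfl⟩
  · simp at hre him
    rcases hz with ⟨a, b, c, d⟩ | ⟨a, b, c⟩
    · linarith
    · refine ⟨(z.im - z.re) / 2, (2 - z.re - z.im) / 2, by linarith, by linarith, ?_⟩
      apply Complex.ext <;> simp <;> ring
  · exact absurd rfl hc
  · simp at hre him
    rcases hz with ⟨a, b, c, d⟩ | ⟨a, b, c⟩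
    · refine ⟨2 - z.im, z.re + 3, by linarith, by linarith, ?_⟩
      apply Complex.ext <;> simp
    · linarith
  · simp at hre him
    rcases hz with ⟨a, b, c, d⟩ | ⟨a, b, c⟩
    · refine ⟨z.re + 3, z.im + 2, by linarith, by linarith, ?_⟩
      apply Complex.ext <;> simp
    · linarith
  · simp at hre him
    rcases hz with ⟨a, b, c, d⟩ | ⟨a, b, c⟩
    · refine ⟨z.im + 2, -z.re, by linarith, by linarith, ?_⟩
      apply Complex.ext <;> simp
    · linarith

end Pool.Agent.R175.Hexa
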