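import Mathlib
import Pool.Agent.R175.Disk
import Pool.Agent.R175.Poly
import Pool.Agent.R175.Hexa.Shape

/-!
# Groups of isometries acting transitively on a tiling by copies of `P`
-/

set_option autoImplicit false

namespace Pool.Agent.R175.Hexa

open Set Complex ComplexConjugate Pool.Agent.R175.Disk MeasureTheory Topology

/-- The images of `P` under the group `H` tile the plane. -/
structure Sys (H : Subgroup (ℂ ≃ᵢ ℂ)) : Prop where
  cov : ∀ z : ℂ, ∃ h ∈ H, z ∈ h '' P
  sep : ∀ h ∈ H, h '' P = P ∨ Disjoint (interior P) (interior (h '' P))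

theorem img_mul (a b : ℂ ≃ᵢ ℂ) (A : Set ℂ) : (a * b) '' A = a '' (b '' A) := by
  rw [image_image]; rfl

theorem img_int (a : ℂ ≃ᵢ ℂ) (A : Set ℂ) : interior (a '' A) = a '' interior A :=
  (a.toHomeomorph.image_interior A).symm

variable {H : Subgroup (ℂ ≃ᵢ ℂ)}

theorem sep2 (hS : Sys H) {a b : ℂ ≃ᵢ ℂ} (ha : a ∈ H) (hb : b ∈ H) :
    a '' P = b '' P ∨ Disjoint (interior (a '' P)) (interior (b '' P)) := by
  rcases hS.sep (a⁻¹ * b) (H.mul_mem (H.inv_mem ha) hb) with h | h
  · left
    have h1 : a '' ((a⁻¹ * b) '' P) = b '' P := by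
      rw [← img_mul, mul_inv_cancel_left]
    rw [h] at h1
    exact h1
  · right
    have h1 : b = a * (a⁻¹ * b) := by rw [mul_inv_cancel_left]
    rw [h1, img_mul, img_int, img_int a ((a⁻¹ * b) '' P)]
    exact (disjoint_image_iff a.injective).2 h

/-- Two elements whose tiles overlap have the same tile. -/
theorem eq_of_meet (hS : Sys H) {a b : ℂ ≃ᵢ ℂ} (ha : a ∈ H) (hb : b ∈ H) {z : ℂ}
    (h1 : z ∈ interior (a '' P)) (h2 : z ∈ interior (b '' P)) : a '' P = b '' P := by
  rcases sep2 hS ha hb with h | h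
  · exact h
  · exact absurd h2 (disjoint_left.1 h h1)

/-- The certificate used for every case. -/
theorem cert (hS : Sys H) {a b : ℂ ≃ᵢ ℂ} (ha : a ∈ H) (hb : b ∈ H) (m p : ℂ)
    (h1 : a m ∈ interior P) (h2 : b m ∈ interior P) (h3 : b p ∈ P) (h4 : a p ∉ P) : False := by
  have e1 : m ∈ interior ((a⁻¹ : ℂ ≃ᵢ ℂ) '' P) := by
    rw [img_int]
    exact ⟨a m, h1, a.symm_apply_apply m⟩
  have e2 : m ∈ interior ((b⁻¹ : ℂ ≃ᵢ ℂ) '' P) := by
    rw [img_int]
    exact ⟨b m, h2, b.symm_apply_apply m⟩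
  have h := eq_of_meet hS (H.inv_mem ha) (H.inv_mem hb) e1 e2
  have e3 : p ∈ (b⁻¹ : ℂ ≃ᵢ ℂ) '' P := ⟨b p, h3, b.symm_apply_apply p⟩
  rw [← h] at e3
  obtain ⟨y, hy, rfl⟩ := e3
  apply h4
  have : a (a⁻¹ y) = y := a.apply_symm_apply y
  rw [this]
  exact hy

theorem tile_closed (a : ℂ ≃ᵢ ℂ) : IsClosed (a '' P) := (P_compact.image a.continuous).isClosed

theorem tile_closure (a : ℂ ≃ᵢ ℂ) : closure (interior (a '' P)) = a '' P := by
  have h1 : closure (a '' interior P) = a '' closure (interior P) :=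
    (a.toHomeomorph.image_closure (interior P)).symm
  rw [img_int, h1, P_closure]

/-- Local finiteness: near `v` every point shares a tile with `v`. -/
theorem LF (hS : Sys H) (v : ℂ) : ∀ᶠ z in 𝓝 v, ∃ h ∈ H, v ∈ h '' P ∧ z ∈ h '' P := by
  let 𝒜 : Set (Set ℂ) := {A | (∃ h ∈ H, A = h '' P) ∧ (A ∩ Metric.ball v 1).Nonempty}
  have hfin : 𝒜.Finite := by
    have h1 := Measure.finite_const_le_meas_of_disjoint_iUnion (volume : Measure ℂ)
      (ε := volume (interior P)) (As := fun A : 𝒜 => interior (A : Set ℂ)) ?_ ?_ ?_ ?_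
    · have h2 : {i : 𝒜 | volume (interior P) ≤ volume (interior (i : Set ℂ))} = univ := by
        ext ⟨A, ⟨h, hh, rfl⟩, hne⟩
        simp only [mem_setOf_eq, mem_univ, iff_true]
        rw [img_int, Poly.volume_image]
      rw [h2] at h1
      exact Set.finite_coe_iff.1 (Set.finite_univ_iff.1 h1)
    · apply IsOpen.measure_pos _ isOpen_interior
      exact ⟨⟨-1, 0⟩, intP_R (by norm_num) (by norm_num) (by norm_num) (by norm_num)⟩
    · intro A
      exact isOpen_interior.measurableSet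
    · rintro ⟨A, ⟨a, ha, rfl⟩, hA⟩ ⟨B, ⟨b, hb, rfl⟩, hB⟩ hAB
      change Disjoint (interior (a '' P)) (interior (b '' P))
      rcases sep2 hS ha hb with h | h
      · exact absurd (Subtype.ext h) hAB
      · exact h
    · have h3 : (⋃ i : 𝒜, interior (i : Set ℂ)) ⊆ Metric.closedBall v 11 := by
        apply iUnion_subset
        rintro ⟨A, ⟨a, ha, rfl⟩, ⟨w, ⟨y, hy, rfl⟩, hw⟩⟩
        refine interior_subset.trans ?_
        rintro _ ⟨z, hz, rfl⟩
        rw [Metric.mem_closedBall]
        rw [Metric.mem_ball] at hw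
        have h4 : dist (a z) (a y) ≤ 10 := by
          rw [a.dist_eq, dist_eq_norm]
          have := norm_sub_le z y
          have h5 := P_bounded hz
          have h6 := P_bounded hy
          linarith
        have := dist_triangle (a z) (a y) v
        linarith
      exact ((measure_mono h3).trans_lt measure_closedBall_lt_top).ne
  have h1 : ∀ᶠ z in 𝓝 v, ∀ A ∈ 𝒜, v ∉ A → z ∉ A := by
    rw [Filter.eventually_all_finite hfin]
    rintro A ⟨⟨a, ha, rfl⟩, hA⟩
    by_cases hv : v ∈ a '' P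
    · exact Filter.Eventually.of_forall fun z h => absurd hv h
    · have := (tile_closed a).isOpen_compl.mem_nhds hv
      filter_upwards [this] with z hz _
      exact hz
  filter_upwards [h1, Metric.ball_mem_nhds v one_pos] with z hz hz1
  obtain ⟨h, hh, hzh⟩ := hS.cov z
  refine ⟨h, hh, ?_, hzh⟩
  by_contra hv
  exact hz (h '' P) ⟨⟨h, hh, rfl⟩, z, hzh, hz1⟩ hv hzh

/-- A new tile stays in the gap. -/
theorem stay (hS : Sys H) {v : ℂ} {W : Set ℂ} (hW : IsClosed W) {K : Set (ℂ ≃ᵢ ℂ)} (hK : ∀ k ∈ K, k ∈ H)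
    {r : ℝ} (hcov : ∀ e : ℂ, ‖e‖ < r → e ∉ W → ∃ k ∈ K, v + e ∈ k '' P)
    {h : ℂ ≃ᵢ ℂ} (hh : h ∈ H) (hne : ∀ k ∈ K, h '' P ≠ k '' P) {e : ℂ} (he : ‖e‖ < r)
    (hm : v + e ∈ h '' P) : e ∈ W := by
  by_contra hc
  let U : Set ℂ := {x | ‖x - v‖ < r ∧ x - v ∉ W}
  have hU : IsOpen U := by
    apply IsOpen.inter
    · exact isOpen_lt (continuous_norm.comp (continuous_id.sub continuous_const)) continuous_const
    · exact hW.isOpen_compl.preimage (continuous_id.sub continuous_const)
  have h1 : v + e ∈ U := by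
    refine ⟨?_, ?_⟩
    · rw [add_sub_cancel_left]; exact he
    · rw [add_sub_cancel_left]; exact hc
  have h2 : v + e ∈ closure (interior (h '' P)) := by rw [tile_closure]; exact hm
  obtain ⟨x, hx1, hx2⟩ := mem_closure_iff.1 h2 U hU h1
  obtain ⟨k, hk, hxk⟩ := hcov (x - v) hx1.1 hx1.2
  rw [add_sub_cancel] at hxk
  rw [← tile_closure] at hxk
  obtain ⟨y, hy1, hy2⟩ := mem_closure_iff.1 hxk (interior (h '' P)) isOpen_interior hx2
  exact hne k hk (eq_of_meet hS hh (hK k hk) hy1 hy2)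

/-- The two shapes of an isometry of the plane. -/
theorem iso_form (h : ℂ ≃ᵢ ℂ) : ∃ u : ℂ, ‖u‖ = 1 ∧
    ((∀ z d, h (z + d) = h z + u * d) ∨ (∀ z d, h (z + d) = h z + u * conj d)) := by
  obtain ⟨a, ha⟩ := linear_isometry_complex h.toRealLinearIsometryEquiv
  refine ⟨a, Circle.norm_coe a, ?_⟩
  have h1 : ∀ x, h x = h.toRealLinearIsometryEquiv x + h 0 := by
    intro x
    rw [IsometryEquiv.toRealLinearIsometryEquiv_apply]; ring
  rcases ha with ha | ha
  · left
    intro z d
    rw [h1 (z + d), h1 z, ha]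
    simp only [rotation_apply]; ring
  · right
    intro z d
    rw [h1 (z + d), h1 z, ha]
    simp only [LinearIsometryEquiv.trans_apply, rotation_apply, conjLIE_apply, map_add]; ring

/-- A half-plane is contained in a half-plane only if they are parallel. -/
theorem half_not {n m : ℂ} (hn : n ≠ 0) {r : ℝ} (hr : 0 < r)
    (h : ∀ e : ℂ, ‖e‖ < r → 0 < (e * conj n).re → 0 ≤ (e * conj m).re) : (n * conj m).im = 0 := by
  by_contra hc
  set α := (n * conj m).re with hα
  set β := (n * conj m).im with hβ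
  set s : ℝ := (|α| + 1) / β with hs
  set q : ℂ := n * (1 + s * I) with hq
  have hq0 : 0 ≤ ‖q‖ := norm_nonneg q
  set δ : ℝ := r / (2 * (‖q‖ + 1)) with hδ
  have hδ0 : 0 < δ := by positivity
  have h1 : ‖(δ : ℂ) * q‖ < r := by
    rw [norm_mul, Complex.norm_real, Real.norm_eq_abs, abs_of_pos hδ0, hδ, div_mul_eq_mul_div,
      div_lt_iff₀ (by positivity)]
    nlinarith
  have h2 : 0 < ((δ : ℂ) * q * conj n).re := by
    have : ((δ : ℂ) * q * conj n).re = δ * Complex.normSq n := by
      rw [hq, Complex.normSq_apply]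
      simp
      ring
    rw [this]
    exact mul_pos hδ0 (Complex.normSq_pos.2 hn)
  have h3 := h _ h1 h2
  have h4 : ((δ : ℂ) * q * conj m).re = δ * (α - s * β) := by
    rw [hα, hβ, hq]
    simp
    ring
  rw [h4, hs, div_mul_cancel₀ _ hc] at h3
  have h5 := le_abs_self α
  have : 0 ≤ α - (|α| + 1) := by
    by_contra h6
    push Not at h6
    have := mul_neg_of_pos_of_neg hδ0 h6
    linarith
  linarith

/-- The wedge with inner normals `m1`, `m2`. -/
def Wedge (m1 m2 : ℂ) : Set ℂ := {e | 0 ≤ (e * conj m1).re ∧ 0 ≤ (e * conj m2).re}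

theorem wedge_closed (m1 m2 : ℂ) : IsClosed (Wedge m1 m2) := by
  apply IsClosed.inter
  · exact isClosed_le continuous_const (Complex.continuous_re.comp (continuous_id.mul continuous_const))
  · exact isClosed_le continuous_const (Complex.continuous_re.comp (continuous_id.mul continuous_const))

theorem wedge_cone {m1 m2 e : ℂ} {s : ℝ} (hs : 0 < s) (h : (s : ℂ) * e ∈ Wedge m1 m2) : e ∈ Wedge m1 m2 := by
  obtain ⟨h1, h2⟩ := h
  rw [mul_assoc, Complex.re_ofReal_mul] at h1 h2
  exact ⟨nonneg_of_mul_nonneg_right h1 hs, nonneg_of_mul_nonneg_right h2 hs⟩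

/-- A new tile at the apex `v` of a convex gap has a convex corner there. -/
theorem gapL (hS : Sys H) {v m1 m2 : ℂ} (hm : (m1 * conj m2).im ≠ 0) {K : Set (ℂ ≃ᵢ ℂ)}
    (hK : ∀ k ∈ K, k ∈ H) {r : ℝ} (hr : 0 < r)
    (hcov : ∀ e : ℂ, ‖e‖ < r → e ∉ Wedge m1 m2 → ∃ k ∈ K, v + e ∈ k '' P)
    {h : ℂ ≃ᵢ ℂ} (hh : h ∈ H) (hne : ∀ k ∈ K, h '' P ≠ k '' P) (hv : v ∈ h '' P) :
    ∃ c A B u : ℂ, Corner c A B ∧ ‖u‖ = 1 ∧
      (((∀ z, h z = u * (z - c) + v) ∧ u * A ∈ Wedge m1 m2 ∧ u * B ∈ Wedge m1 m2) ∨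
        ((∀ z, h z = u * conj (z - c) + v) ∧ u * conj A ∈ Wedge m1 m2 ∧ u * conj B ∈ Wedge m1 m2)) := by
  obtain ⟨y, hy, rfl⟩ := hv
  have hst : ∀ {e : ℂ}, ‖e‖ < r → h y + e ∈ h '' P → e ∈ Wedge m1 m2 := fun he hm' =>
    stay hS (wedge_closed m1 m2) hK hcov hh hne he hm'
  obtain ⟨u, hu, hf⟩ := iso_form h
  have hu0 : u ≠ 0 := by
    intro h0; rw [h0, norm_zero] at hu; exact zero_ne_one hu
  have huu : u * conj u = 1 := by
    rw [Complex.mul_conj, Complex.normSq_eq_norm_sq, hu]; norm_num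
  -- there is no half-disk in the gap
  have key : ∀ n' : ℂ, n' ≠ 0 → ∀ r' > 0,
      (∀ e : ℂ, ‖e‖ < r' → 0 < (e * conj n').re → h y + e ∈ h '' P) → False := by
    intro n' hn' r' hr' hd
    have h1 : ∀ e : ℂ, ‖e‖ < min r r' → 0 < (e * conj n').re → e ∈ Wedge m1 m2 := by
      intro e he hp
      rw [lt_min_iff] at he
      exact hst he.1 (hd e he.2 hp)
    have h2 := half_not hn' (lt_min hr hr') (fun e he hp => (h1 e he hp).1)
    have h3 := half_not hn' (lt_min hr hr') (fun e he hp => (h1 e he hp).2)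
    apply hm
    have h4 : (m1 * conj m2).im * Complex.normSq n' = 0 := by
      have e1 : conj (n' * conj m1) * (n' * conj m2) = (m1 * conj m2) * (Complex.normSq n' : ℂ) := by
        rw [← Complex.mul_conj]
        simp only [map_mul, Complex.conj_conj]
        ring
      have e2 := congrArg Complex.im e1
      rw [Complex.im_mul_ofReal] at e2
      rw [← e2, Complex.mul_im, Complex.conj_im, Complex.conj_re, h2, h3]
      ring
    exact (mul_eq_zero.1 h4).resolve_right (Complex.normSq_pos.2 hn').ne'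
  have hcorner : ∀ c A B : ℂ, Corner c A B → y = c → ∃ c A B u : ℂ, Corner c A B ∧ ‖u‖ = 1 ∧
      (((∀ z, h z = u * (z - c) + h y) ∧ u * A ∈ Wedge m1 m2 ∧ u * B ∈ Wedge m1 m2) ∨
        ((∀ z, h z = u * conj (z - c) + h y) ∧ u * conj A ∈ Wedge m1 m2 ∧ u * conj B ∈ Wedge m1 m2)) := by
    rintro c A B hc rfl
    refine ⟨y, A, B, u, hc, hu, ?_⟩
    have hbig : ∀ x : ℂ, ∃ s : ℝ, 0 < s ∧ s ≤ 1 / 4 ∧ s * ‖x‖ < r := by
      intro x
      refine ⟨min (1 / 4) (r / (2 * (‖x‖ + 1))), ?_, min_le_left _ _, ?_⟩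
      · have := norm_nonneg x
        exact lt_min (by norm_num) (by positivity)
      · have h0 := norm_nonneg x
        have h1 : min (1 / 4) (r / (2 * (‖x‖ + 1))) * ‖x‖ ≤ r / (2 * (‖x‖ + 1)) * ‖x‖ :=
          mul_le_mul_of_nonneg_right (min_le_right _ _) h0
        refine h1.trans_lt ?_
        rw [div_mul_eq_mul_div, div_lt_iff₀ (by positivity)]
        nlinarith
    obtain ⟨s, hs0, hs1, hs2⟩ := hbig A
    obtain ⟨t, ht0, ht1, ht2⟩ := hbig B
    have hA : y + s * A ∈ P := by
      have := corner_in hc hs0.le le_rfl hs1 (by norm_num : (0 : ℝ) ≤ 1 / 4)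
      simpa using this
    have hB : y + t * B ∈ P := by
      have := corner_in hc le_rfl ht0.le (by norm_num : (0 : ℝ) ≤ 1 / 4) ht1
      simpa using this
    rcases hf with hf | hf
    · left
      refine ⟨?_, ?_, ?_⟩
      · intro z
        have := hf y (z - y)
        rw [add_sub_cancel] at this
        rw [this]; ring
      · apply wedge_cone hs0
        have e1 : h (y + s * A) = h y + s * (u * A) := by rw [hf]; ring
        apply hst
        · rw [norm_mul, norm_mul, hu, one_mul, Complex.norm_real, Real.norm_eq_abs, abs_of_pos hs0]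
          exact hs2
        · rw [← e1]; exact ⟨_, hA, rfl⟩
      · apply wedge_cone ht0
        have e1 : h (y + t * B) = h y + t * (u * B) := by rw [hf]; ring
        apply hst
        · rw [norm_mul, norm_mul, hu, one_mul, Complex.norm_real, Real.norm_eq_abs, abs_of_pos ht0]
          exact ht2
        · rw [← e1]; exact ⟨_, hB, rfl⟩
    · right
      refine ⟨?_, ?_, ?_⟩
      · intro z
        have := hf y (z - y)
        rw [add_sub_cancel] at this
        rw [this]; ring
      · apply wedge_cone hs0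
        have e1 : h (y + s * A) = h y + s * (u * conj A) := by
          rw [hf, map_mul, Complex.conj_ofReal]; ring
        apply hst
        · rw [norm_mul, norm_mul, hu, one_mul, Complex.norm_real, Real.norm_eq_abs, abs_of_pos hs0,
            Complex.norm_conj]
          exact hs2
        · rw [← e1]; exact ⟨_, hA, rfl⟩
      · apply wedge_cone ht0
        have e1 : h (y + t * B) = h y + t * (u * conj B) := by
          rw [hf, map_mul, Complex.conj_ofReal]; ring
        apply hst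
        · rw [norm_mul, norm_mul, hu, one_mul, Complex.norm_real, Real.norm_eq_abs, abs_of_pos ht0,
            Complex.norm_conj]
          exact ht2
        · rw [← e1]; exact ⟨_, hB, rfl⟩
  rcases loc hy with ⟨n, hn, r', hr', hd⟩ | h1 | h1 | h1 | h1 | h1
  · exfalso
    rcases hf with hf | hf
    · apply key (u * n) (mul_ne_zero hu0 hn) r' hr'
      intro e he hp
      have e1 : e = u * (conj u * e) := by rw [← mul_assoc, huu, one_mul]
      have e2 : h y + e = h (y + conj u * e) := by rw [hf, ← e1]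
      rw [e2]
      refine ⟨_, hd _ ?_ ?_, rfl⟩
      · rw [norm_mul, Complex.norm_conj, hu, one_mul]; exact he
      · have : conj u * e * conj n = e * conj (u * n) := by rw [map_mul]; ring
        rw [this]; exact hp
    · apply key (u * conj n) (mul_ne_zero hu0 (by simpa using hn)) r' hr'
      intro e he hp
      have e1 : e = u * conj (u * conj e) := by
        rw [map_mul, Complex.conj_conj, ← mul_assoc, huu, one_mul]
      have e2 : h y + e = h (y + u * conj e) := by rw [hf, ← e1]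
      rw [e2]
      refine ⟨_, hd _ ?_ ?_, rfl⟩
      · rw [norm_mul, Complex.norm_conj, hu, one_mul]; exact he
      · have : (u * conj e * conj n).re = (e * conj (u * conj n)).re := by
          rw [← Complex.conj_re (u * conj e * conj n)]
          congr 1
          simp only [map_mul, Complex.conj_conj]
          ring
        rw [this]; exact hp
  · exact hcorner _ _ _ (Or.inl ⟨rfl, rfl, rfl⟩) h1
  · exact hcorner _ _ _ (Or.inr (Or.inl ⟨rfl, rfl, rfl⟩)) h1
  · exact hcorner _ _ _ (Or.inr (Or.inr (Or.inl ⟨rfl, rfl, rfl⟩))) h1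
  · exact hcorner _ _ _ (Or.inr (Or.inr (Or.inr (Or.inl ⟨rfl, rfl, rfl⟩)))) h1
  · exact hcorner _ _ _ (Or.inr (Or.inr (Or.inr (Or.inr ⟨rfl, rfl, rfl⟩)))) h1

end Pool.Agent.R175.Hexa
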