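import Mathlib
import Pool.Agent.R175.Hexa.Sys

/-!
# The first vertex and the quadrant gaps
-/

set_option autoImplicit false

namespace Pool.Agent.R175.Hexa

open Set Complex ComplexConjugate Pool.Agent.R175.Disk MeasureTheory Topology

variable {H : Subgroup (ℂ ≃ᵢ ℂ)}

theorem notP {z : ℂ} (h : z.re < -3 ∨ z.im < -2 ∨ 2 < z.im ∨ 1 < z.re ∨ (0 < z.re ∧ z.im < z.re) ∨
    (0 < z.re ∧ 2 - z.re < z.im)) : z ∉ P := by
  rintro (⟨a, b, c, d⟩ | ⟨a, b, c⟩)
  · rcases h with h | h | h | h | ⟨h, h'⟩ | ⟨h, h'⟩ <;> linarith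
  · rcases h with h | h | h | h | ⟨h, h'⟩ | ⟨h, h'⟩ <;> linarith

theorem corner_right {c A B : ℂ} (h : Corner c A B) (hc : c ≠ ⟨0, 2⟩) : B = I * A ∧ A ≠ 0 := by
  rcases h with ⟨rfl, rfl, rfl⟩ | ⟨rfl, rfl, rfl⟩ | ⟨rfl, rfl, rfl⟩ | ⟨rfl, rfl, rfl⟩ | ⟨rfl, rfl, rfl⟩
  · refine ⟨by apply Complex.ext <;> simp, by intro h; have := congrArg Complex.re h; simp at this⟩
  · exact absurd rfl hc
  · refine ⟨by apply Complex.ext <;> simp, by intro h; have := congrArg Complex.im h; simp at this⟩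
  · refine ⟨by apply Complex.ext <;> simp, by intro h; have := congrArg Complex.re h; simp at this⟩
  · refine ⟨by apply Complex.ext <;> simp, by intro h; have := congrArg Complex.im h; simp at this⟩

theorem corner_int {c A B : ℂ} (h : Corner c A B) (hc : c ≠ ⟨0, 2⟩) {s t : ℝ} (hs : 0 < s) (ht : 0 < t)
    (hs1 : s < 1 / 4) (ht1 : t < 1 / 4) : c + s * A + t * B ∈ interior P := by
  rcases h with ⟨rfl, rfl, rfl⟩ | ⟨rfl, rfl, rfl⟩ | ⟨rfl, rfl, rfl⟩ | ⟨rfl, rfl, rfl⟩ | ⟨rfl, rfl, rfl⟩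
  · apply intP_T <;> simp <;> linarith
  · exact absurd rfl hc
  · apply intP_R <;> simp <;> linarith
  · apply intP_R <;> simp <;> linarith
  · apply intP_R <;> simp <;> linarith

/-- A tile is a quadrant near `0`. -/
def Quad (h : ℂ ≃ᵢ ℂ) (x : ℂ) : Prop :=
  (∀ s t : ℝ, 0 < s → 0 < t → s < 1 / 4 → t < 1 / 4 → s * x + t * (I * x) ∈ interior (h '' P)) ∧
    ∀ z ∈ h '' P, ‖z‖ < 1 / 4 → ∃ s t : ℝ, 0 ≤ s ∧ 0 ≤ t ∧ z = s * x + t * (I * x)

theorem mem_wedge {m1 m2 e : ℂ} : e ∈ Wedge m1 m2 ↔ 0 ≤ (e * conj m1).re ∧ 0 ≤ (e * conj m2).re := Iff.rfl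

theorem rootW {e : ℂ} : e ∈ Wedge 1 ⟨1, -1⟩ ↔ 0 ≤ e.re ∧ e.im ≤ e.re := by
  rw [mem_wedge]
  simp

theorem root_cov : ∀ e : ℂ, ‖e‖ < 1 → e ∉ Wedge 1 ⟨1, -1⟩ → ∃ k ∈ ({1} : Set (ℂ ≃ᵢ ℂ)), 0 + e ∈ k '' P := by
  intro e he hW
  refine ⟨1, rfl, e, ?_, by simp⟩
  rw [rootW] at hW
  have h1 := abs_le.1 ((Complex.abs_re_le_norm e).trans he.le)
  have h2 := abs_le.1 ((Complex.abs_im_le_norm e).trans he.le)
  by_cases h : e.re ≤ 0
  · left
    exact ⟨by linarith, h, by linarith, by linarith⟩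
  · push Not at h
    have h3 : e.re < e.im := by
      by_contra hc
      exact hW ⟨h.le, not_lt.1 hc⟩
    right
    exact ⟨h.le, h3.le, by linarith⟩

theorem root_case (hS : Sys H) {h : ℂ ≃ᵢ ℂ} (hh : h ∈ H) (hne : h '' P ≠ P) (h0 : (0 : ℂ) ∈ h '' P) :
    (∀ z, h z = I * z + 2) ∨
      ∃ x : ℂ, x ≠ 0 ∧ x ∈ Wedge 1 ⟨1, -1⟩ ∧ I * x ∈ Wedge 1 ⟨1, -1⟩ ∧ Quad h x := by
  have hne' : ∀ k ∈ ({1} : Set (ℂ ≃ᵢ ℂ)), h '' P ≠ k '' P := by
    rintro k rfl
    have : (1 : ℂ ≃ᵢ ℂ) '' P = P := by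
      ext z; simp
    rw [this]; exact hne
  obtain ⟨c, A, B, u, hc, hu, hf⟩ := gapL hS (m1 := 1) (m2 := ⟨1, -1⟩) (by simp)
    (K := {1}) (by rintro k rfl; exact H.one_mem) one_pos root_cov hh hne' h0
  by_cases hc2 : c = ⟨0, 2⟩
  · left
    have hAB : A = ⟨-1, 0⟩ ∧ B = ⟨1, -1⟩ := by
      rcases hc with ⟨h1, _⟩ | ⟨_, h2, h3⟩ | ⟨h1, _⟩ | ⟨h1, _⟩ | ⟨h1, _⟩
      · rw [hc2] at h1; have := congrArg Complex.re h1; norm_num at this
      · exact ⟨h2, h3⟩
      · rw [hc2] at h1; have := congrArg Complex.re h1; norm_num at this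
      · rw [hc2] at h1; have := congrArg Complex.re h1; norm_num at this
      · rw [hc2] at h1; have := congrArg Complex.im h1; norm_num at this
    obtain ⟨rfl, rfl⟩ := hAB
    subst hc2
    have hn : u.re * u.re + u.im * u.im = 1 := by
      have := Complex.normSq_eq_norm_sq u
      rw [hu, Complex.normSq_apply] at this
      linarith
    rcases hf with ⟨hz, hA, hB⟩ | ⟨hz, hA, hB⟩
    · rw [rootW] at hA hB
      simp at hA hB
      have e1 : u.re = 0 := by linarith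
      have e2 : u.im = 1 := by
        rw [e1] at hn
        have : 0 ≤ u.im := by linarith
        nlinarith
      intro z
      rw [hz z]
      apply Complex.ext <;> simp [e1, e2] <;> ring
    · exfalso
      rw [rootW] at hA hB
      simp at hA hB
      have e1 : u.im = u.re := by linarith
      have e2 : u.re ≤ 0 := by linarith
      obtain ⟨S, hSS⟩ : ∃ S : ℝ, S = -u.re := ⟨_, rfl⟩
      have hS0 : 0 ≤ S := by linarith
      have hre : u.re = -S := by linarith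
      have him : u.im = -S := by linarith
      have hS2 : S * S = 1 / 2 := by rw [hre, him] at hn; linarith
      have hb1 : 0.7 < S := by nlinarith
      have hb2 : S < 0.71 := by nlinarith
      have hh2 : ∀ z, (h * h) z = z + ⟨2 * S, -2 - 2 * S⟩ := by
        intro z
        rw [IsometryEquiv.mul_apply, hz, hz]
        apply Complex.ext
        · simp [hre, him]
          linear_combination (z.re * 2 * hS2) 
        · simp [hre, him]
          linear_combination ((z.im - 2) * 2 * hS2)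
      refine cert hS H.one_mem (H.mul_mem hh hh) ⟨-11/4, 7/4⟩ ⟨-2, 3⟩ ?_ ?_ ?_ ?_
      · apply intP_R <;> simp <;> norm_num
      · rw [hh2]
        apply intP_R <;> simp <;> norm_num <;> linarith
      · rw [hh2]
        left
        refine ⟨?_, ?_, ?_, ?_⟩ <;> simp <;> norm_num <;> linarith
      · apply notP
        simp
        norm_num
  · right
    obtain ⟨hBA, hA0⟩ := corner_right hc hc2
    have hu0 : u ≠ 0 := by
      intro h0; rw [h0, norm_zero] at hu; exact zero_ne_one hu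
    rcases hf with ⟨hz, hA, hB⟩ | ⟨hz, hA, hB⟩
    · have e1 : u * B = I * (u * A) := by rw [hBA]; ring
      rw [e1] at hB
      refine ⟨u * A, mul_ne_zero hu0 hA0, hA, hB, ?_, ?_⟩
      · intro s t hs ht hs1 ht1
        rw [img_int]
        refine ⟨_, corner_int hc hc2 hs ht hs1 ht1, ?_⟩
        rw [hz, ← e1]; ring
      · rintro _ ⟨y, hy, rfl⟩ hzn
        have h1 : dist y c < 1 / 4 := by
          rw [hz, add_zero, norm_mul, hu, one_mul] at hzn
          rw [dist_eq_norm]; exact hzn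
        obtain ⟨s, t, hs, ht, hst⟩ := corner_out hc hc2 hy h1
        refine ⟨s, t, hs, ht, ?_⟩
        rw [hz, hst, ← e1]; ring
    · have e1 : u * conj A = I * (u * conj B) := by
        rw [hBA, map_mul, Complex.conj_I]
        linear_combination (u * conj A) * Complex.I_mul_I
      rw [e1] at hA
      have hB0 : B ≠ 0 := by rw [hBA]; exact mul_ne_zero I_ne_zero hA0
      refine ⟨u * conj B, mul_ne_zero hu0 (by simpa using hB0), hB, hA, ?_, ?_⟩
      · intro s t hs ht hs1 ht1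
        rw [img_int]
        refine ⟨_, corner_int hc hc2 ht hs ht1 hs1, ?_⟩
        rw [hz, ← e1]
        simp only [map_sub, map_add, map_mul, Complex.conj_ofReal]; ring
      · rintro _ ⟨y, hy, rfl⟩ hzn
        have h1 : dist y c < 1 / 4 := by
          rw [hz, add_zero, norm_mul, hu, one_mul, Complex.norm_conj] at hzn
          rw [dist_eq_norm]; exact hzn
        obtain ⟨s, t, hs, ht, hst⟩ := corner_out hc hc2 hy h1
        refine ⟨t, s, ht, hs, ?_⟩
        rw [hz, hst, ← e1]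
        simp only [map_sub, map_add, map_mul, Complex.conj_ofReal]; ring

theorem quad_d0 {h : ℂ ≃ᵢ ℂ} {x : ℂ} (hx0 : x ≠ 0) (hx : x ∈ Wedge 1 ⟨1, -1⟩) (hIx : I * x ∈ Wedge 1 ⟨1, -1⟩)
    (hq : Quad h x) : ∃ δ₀ > 0, ∀ δ : ℝ, 0 < δ → δ ≤ δ₀ → (δ : ℂ) * ⟨5, -2⟩ ∈ interior (h '' P) := by
  rw [rootW] at hx hIx
  simp at hIx
  have h2 : x.im < 0 := by
    rcases lt_or_eq_of_le hIx.1 with h | h
    · exact h
    · exfalso
      apply hx0
      apply Complex.ext
      · simp; linarith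
      · simp; exact h
  obtain ⟨N, hN⟩ : ∃ N : ℝ, N = x.re * x.re + x.im * x.im := ⟨_, rfl⟩
  have hN0 : 0 < N := by nlinarith
  obtain ⟨s, hs⟩ : ∃ s : ℝ, s = (5 * x.re - 2 * x.im) / N := ⟨_, rfl⟩
  obtain ⟨t, ht⟩ : ∃ t : ℝ, t = (-5 * x.im - 2 * x.re) / N := ⟨_, rfl⟩
  have hs0 : 0 < s := by rw [hs]; apply div_pos _ hN0; linarith
  have ht0 : 0 < t := by rw [ht]; apply div_pos _ hN0; linarith
  refine ⟨1 / (8 * (s + t)), by positivity, ?_⟩
  intro δ hδ hδ1
  have h3 : δ * (8 * (s + t)) ≤ 1 := by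
    rw [le_div_iff₀ (by positivity)] at hδ1
    exact hδ1
  have e1 : (δ : ℂ) * ⟨5, -2⟩ = ((δ * s : ℝ) : ℂ) * x + ((δ * t : ℝ) : ℂ) * (I * x) := by
    apply Complex.ext
    · simp
      rw [hs, ht]
      field_simp
      rw [hN]; ring
    · simp
      rw [hs, ht]
      field_simp
      rw [hN]; ring
  rw [e1]
  apply hq.1
  · positivity
  · positivity
  · nlinarith [mul_pos hδ ht0]
  · nlinarith [mul_pos hδ hs0]

theorem root (hS : Sys H) : ∃ h ∈ H, ∀ z, h z = I * z + 2 := by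
  obtain ⟨ε, hε, hL⟩ := Metric.eventually_nhds_iff.1 (LF hS 0)
  have hdir : ∀ d : ℂ, 0 < d.re → d.im < d.re → ∃ h ∈ H, (0 : ℂ) ∈ h '' P ∧ h '' P ≠ P ∧
      ∃ δ : ℝ, 0 < δ ∧ ‖(δ : ℂ) * d‖ < 1 / 4 ∧ (δ : ℂ) * d ∈ h '' P := by
    intro d hd1 hd2
    obtain ⟨δ, hδ⟩ : ∃ δ : ℝ, δ = min ε (1 / 4) / (2 * (‖d‖ + 1)) := ⟨_, rfl⟩
    have hd0 := norm_nonneg d
    have hm : 0 < min ε (1 / 4) := lt_min hε (by norm_num)
    have hδ0 : 0 < δ := by rw [hδ]; positivity
    have h1 : ‖(δ : ℂ) * d‖ < min ε (1 / 4) := by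
      rw [norm_mul, Complex.norm_real, Real.norm_eq_abs, abs_of_pos hδ0, hδ, div_mul_eq_mul_div,
        div_lt_iff₀ (by positivity)]
      nlinarith
    rw [lt_min_iff] at h1
    obtain ⟨h, hh, h0, hd⟩ := hL (y := (δ : ℂ) * d) (by rw [dist_zero_right]; exact h1.1)
    refine ⟨h, hh, h0, ?_, δ, hδ0, h1.2, hd⟩
    intro he
    rw [he] at hd
    revert hd
    apply notP
    right; right; right; right; left
    simp
    exact ⟨mul_pos hδ0 hd1, mul_lt_mul_of_pos_left hd2 hδ0⟩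
  obtain ⟨h1, hh1, h10, h1n, δ1, hδ1, hδ1', hd1⟩ := hdir ⟨1, -10⟩ (by norm_num) (by norm_num)
  obtain ⟨h2, hh2, h20, h2n, δ2, hδ2, hδ2', hd2⟩ := hdir ⟨10, 9⟩ (by norm_num) (by norm_num)
  rcases root_case hS hh1 h1n h10 with h | ⟨x, hx0, hx, hIx, hq⟩
  · exact ⟨h1, hh1, h⟩
  rcases root_case hS hh2 h2n h20 with h | ⟨y, hy0, hy, hIy, hqy⟩
  · exact ⟨h2, hh2, h⟩
  exfalso
  obtain ⟨a, ha, hA⟩ := quad_d0 hx0 hx hIx hq
  obtain ⟨b, hb, hB⟩ := quad_d0 hy0 hy hIy hqy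
  have he := eq_of_meet hS hh1 hh2 (hA (min a b) (lt_min ha hb) (min_le_left _ _))
    (hB (min a b) (lt_min ha hb) (min_le_right _ _))
  rw [← he] at hd2
  obtain ⟨s1, t1, hs1, ht1, e1⟩ := hq.2 _ hd1 hδ1'
  obtain ⟨s2, t2, hs2, ht2, e2⟩ := hq.2 _ hd2 hδ2'
  have f1 := congrArg Complex.re e1
  have f2 := congrArg Complex.im e1
  have f3 := congrArg Complex.re e2
  have f4 := congrArg Complex.im e2
  simp at f1 f2 f3 f4
  have key : δ1 * (δ2 * 10) + -(δ1 * 10) * (δ2 * 9) =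
      (s1 * s2 + t1 * t2) * (x.re * x.re + x.im * x.im) := by
    linear_combination (δ2 * 10) * f1 + (s1 * x.re - t1 * x.im) * f3 + (δ2 * 9) * f2 +
      (s1 * x.im + t1 * x.re) * f4
  have h3 : 0 ≤ (s1 * s2 + t1 * t2) * (x.re * x.re + x.im * x.im) :=
    mul_nonneg (add_nonneg (mul_nonneg hs1 hs2) (mul_nonneg ht1 ht2))
      (add_nonneg (mul_self_nonneg _) (mul_self_nonneg _))
  nlinarith [mul_pos hδ1 hδ2]

theorem quad_w {w x : ℂ} (hw : w * conj w = 1) (h1 : x ∈ Wedge w (I * w)) (h2 : I * x ∈ Wedge w (I * w)) :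
    x = ‖x‖ * w := by
  obtain ⟨y, hy⟩ : ∃ y, y = x * conj w := ⟨_, rfl⟩
  have hxy : x = y * w := by rw [hy, mul_assoc, mul_comm (conj w), hw, mul_one]
  have e1 : x * conj (I * w) = -(I * y) := by rw [hy, map_mul, Complex.conj_I]; ring
  have e2 : I * x * conj w = I * y := by rw [hy]; ring
  rw [mem_wedge, ← hy, e1] at h1
  rw [mem_wedge, e2] at h2
  simp at h1 h2
  have h3 : y.im = 0 := by linarith
  have h4 : y = (y.re : ℂ) := by apply Complex.ext <;> simp [h3]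
  have hwn : ‖w‖ = 1 := by
    have := congrArg norm hw
    rw [norm_mul, Complex.norm_conj, norm_one] at this
    nlinarith [norm_nonneg w]
  have h5 : ‖x‖ = y.re := by
    rw [hxy, norm_mul, hwn, mul_one, h4, Complex.norm_real, Real.norm_eq_abs, abs_of_nonneg h1.1]
    simp
  rw [h5, ← h4]
  exact hxy

/-- The eight placements of `P` in a quadrant gap. -/
def Place (h : ℂ ≃ᵢ ℂ) (S : ℝ) (v w : ℂ) : Prop :=
  (∀ z, h z = w * ⟨-S, -S⟩ * (z - ⟨1, 1⟩) + v) ∨ (∀ z, h z = w * ⟨-S, -S⟩ * conj (z - ⟨1, 1⟩) + v) ∨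
  (∀ z, h z = I * w * (z - ⟨-3, 2⟩) + v) ∨ (∀ z, h z = w * conj (z - ⟨-3, 2⟩) + v) ∨
  (∀ z, h z = w * (z - ⟨-3, -2⟩) + v) ∨ (∀ z, h z = I * w * conj (z - ⟨-3, -2⟩) + v) ∨
  (∀ z, h z = -(I * w) * (z - ⟨0, -2⟩) + v) ∨ (∀ z, h z = -w * conj (z - ⟨0, -2⟩) + v)

theorem gapQ (hS : Sys H) {v w : ℂ} (hw : w * conj w = 1) {K : Set (ℂ ≃ᵢ ℂ)} (hK : ∀ k ∈ K, k ∈ H)
    {r : ℝ} (hr : 0 < r) (hcov : ∀ e : ℂ, ‖e‖ < r → e ∉ Wedge w (I * w) → ∃ k ∈ K, v + e ∈ k '' P)
    (hout : ∀ ε > 0, ∃ z, dist z v < ε ∧ ∀ k ∈ K, z ∉ k '' P) :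
    ∃ h ∈ H, ∃ S : ℝ, 0 < S ∧ S * S = 1 / 2 ∧ Place h S v w := by
  obtain ⟨ε, hε, hL⟩ := Metric.eventually_nhds_iff.1 (LF hS v)
  obtain ⟨z0, hz0, hz0K⟩ := hout ε hε
  obtain ⟨h, hh, hv, hz0h⟩ := hL hz0
  have hne : ∀ k ∈ K, h '' P ≠ k '' P := by
    intro k hk he
    apply hz0K k hk
    rw [← he]; exact hz0h
  have hm : (w * conj (I * w)).im ≠ 0 := by
    have : w * conj (I * w) = -I := by
      rw [map_mul, Complex.conj_I]
      linear_combination (-I) * hw
    rw [this]; simp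
  obtain ⟨c, A, B, u, hc, hu, hf⟩ := gapL hS hm hK hr hcov hh hne hv
  have hS0 : (0 : ℝ) < Real.sqrt 2 / 2 := by positivity
  have hS2 : Real.sqrt 2 / 2 * (Real.sqrt 2 / 2) = 1 / 2 := by
    have := Real.mul_self_sqrt (show (0 : ℝ) ≤ 2 by norm_num)
    linarith
  refine ⟨h, hh, Real.sqrt 2 / 2, hS0, hS2, ?_⟩
  have hu0 : u ≠ 0 := by
    intro h0; rw [h0, norm_zero] at hu; exact zero_ne_one hu
  by_cases hc2 : c = ⟨0, 2⟩
  · exfalso
    have hAB : A = ⟨-1, 0⟩ ∧ B = ⟨1, -1⟩ := by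
      rcases hc with ⟨h1, _⟩ | ⟨_, h2, h3⟩ | ⟨h1, _⟩ | ⟨h1, _⟩ | ⟨h1, _⟩
      · rw [hc2] at h1; have := congrArg Complex.re h1; norm_num at this
      · exact ⟨h2, h3⟩
      · rw [hc2] at h1; have := congrArg Complex.re h1; norm_num at this
      · rw [hc2] at h1; have := congrArg Complex.re h1; norm_num at this
      · rw [hc2] at h1; have := congrArg Complex.im h1; norm_num at this
    obtain ⟨rfl, rfl⟩ := hAB
    obtain ⟨y, hy⟩ : ∃ y, y = u * conj w := ⟨_, rfl⟩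
    have hy0 : y ≠ 0 := by
      rw [hy]
      refine mul_ne_zero hu0 ?_
      intro h0
      rw [h0, mul_zero] at hw
      exact zero_ne_one hw
    apply hy0
    rcases hf with ⟨_, hA, hB⟩ | ⟨_, hA, hB⟩
    · have e1 : u * ⟨-1, 0⟩ * conj w = -y := by
        rw [hy]; apply Complex.ext <;> simp <;> ring
      have e2 : u * ⟨-1, 0⟩ * conj (I * w) = I * y := by
        rw [hy, map_mul]; apply Complex.ext <;> simp <;> ring
      have e3 : u * ⟨1, -1⟩ * conj w = (1 - I) * y := by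
        rw [hy]; apply Complex.ext <;> simp <;> ring
      have e4 : u * ⟨1, -1⟩ * conj (I * w) = -((1 + I) * y) := by
        rw [hy, map_mul]; apply Complex.ext <;> simp <;> ring
      rw [mem_wedge, e1, e2] at hA
      rw [mem_wedge, e3, e4] at hB
      simp at hA hB
      apply Complex.ext <;> simp <;> linarith
    · have e1 : u * conj ⟨-1, 0⟩ * conj w = -y := by
        rw [hy]; apply Complex.ext <;> simp <;> ring
      have e2 : u * conj ⟨-1, 0⟩ * conj (I * w) = I * y := by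
        rw [hy, map_mul]; apply Complex.ext <;> simp <;> ring
      have e3 : u * conj ⟨1, -1⟩ * conj w = (1 + I) * y := by
        rw [hy]; apply Complex.ext <;> simp <;> ring
      have e4 : u * conj ⟨1, -1⟩ * conj (I * w) = (1 - I) * y := by
        rw [hy, map_mul]; apply Complex.ext <;> simp <;> ring
      rw [mem_wedge, e1, e2] at hA
      rw [mem_wedge, e3, e4] at hB
      simp at hA hB
      apply Complex.ext <;> simp <;> linarith
  · obtain ⟨hBA, hA0⟩ := corner_right hc hc2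
    have hnorm2 : ‖(⟨-1, 1⟩ : ℂ)‖ = Real.sqrt 2 := by
      rw [Complex.norm_def, Complex.normSq_apply]; norm_num
    have hnorm2' : ‖(⟨-1, -1⟩ : ℂ)‖ = Real.sqrt 2 := by
      rw [Complex.norm_def, Complex.normSq_apply]; norm_num
    have hn1 : ‖(⟨0, -1⟩ : ℂ)‖ = 1 := by
      rw [Complex.norm_def, Complex.normSq_apply]; norm_num
    have hn2 : ‖(⟨1, 0⟩ : ℂ)‖ = 1 := by
      rw [Complex.norm_def, Complex.normSq_apply]; norm_num
    have hn3 : ‖(⟨0, 1⟩ : ℂ)‖ = 1 := by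
      rw [Complex.norm_def, Complex.normSq_apply]; norm_num
    have hn4 : ‖(⟨-1, 0⟩ : ℂ)‖ = 1 := by
      rw [Complex.norm_def, Complex.normSq_apply]; norm_num
    have hsq : (Real.sqrt 2 / 2) * Real.sqrt 2 = 1 := by
      have := Real.mul_self_sqrt (show (0 : ℝ) ≤ 2 by norm_num)
      linarith
    rcases hf with ⟨hz, hA, hB⟩ | ⟨hz, hA, hB⟩
    · have e1 : u * B = I * (u * A) := by rw [hBA]; ring
      rw [e1] at hB
      have hx := quad_w hw hA hB
      rw [norm_mul, hu, one_mul] at hx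
      rcases hc with ⟨rfl, rfl, rfl⟩ | ⟨rfl, rfl, rfl⟩ | ⟨rfl, rfl, rfl⟩ | ⟨rfl, rfl, rfl⟩ | ⟨rfl, rfl, rfl⟩
      · left
        have e2 : u = w * ⟨-(Real.sqrt 2 / 2), -(Real.sqrt 2 / 2)⟩ := by
          have h5 : u = (u * ⟨-1, 1⟩) * ⟨-1 / 2, -1 / 2⟩ := by
            apply Complex.ext <;> simp <;> ring
          rw [h5, hx, hnorm2]
          apply Complex.ext <;> simp <;> ring
        rw [← e2]; exact hz
      · exact absurd rfl hc2
      · right; right; left
        have e2 : u = I * w := by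
          have h5 : u = I * (u * ⟨0, -1⟩) := by apply Complex.ext <;> simp
          rw [h5, hx, hn1]; simp
        rw [← e2]; exact hz
      · right; right; right; right; left
        have e2 : u = w := by
          have h5 : u = (u * ⟨1, 0⟩) := by apply Complex.ext <;> simp
          rw [h5, hx, hn2]; simp
        rw [← e2]; exact hz
      · right; right; right; right; right; right; left
        have e2 : u = -(I * w) := by
          have h5 : u = -(I * (u * ⟨0, 1⟩)) := by apply Complex.ext <;> simp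
          rw [h5, hx, hn3]; simp
        rw [← e2]; exact hz
    · have e1 : u * conj A = I * (u * conj B) := by
        rw [hBA, map_mul, Complex.conj_I]
        linear_combination (u * conj A) * Complex.I_mul_I
      rw [e1] at hA
      have hx := quad_w hw hB hA
      rw [norm_mul, hu, one_mul, Complex.norm_conj] at hx
      rcases hc with ⟨rfl, rfl, rfl⟩ | ⟨rfl, rfl, rfl⟩ | ⟨rfl, rfl, rfl⟩ | ⟨rfl, rfl, rfl⟩ | ⟨rfl, rfl, rfl⟩
      · right; left
        have e2 : u = w * ⟨-(Real.sqrt 2 / 2), -(Real.sqrt 2 / 2)⟩ := by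
          have h5 : u = (u * conj ⟨-1, -1⟩) * ⟨-1 / 2, -1 / 2⟩ := by
            apply Complex.ext <;> simp <;> ring
          rw [h5, hx, hnorm2']
          apply Complex.ext <;> simp <;> ring
        rw [← e2]; exact hz
      · exact absurd rfl hc2
      · right; right; right; left
        have e2 : u = w := by
          have h5 : u = (u * conj ⟨1, 0⟩) := by apply Complex.ext <;> simp
          rw [h5, hx, hn2]; simp
        rw [← e2]; exact hz
      · right; right; right; right; right; left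
        have e2 : u = I * w := by
          have h5 : u = I * (u * conj ⟨0, 1⟩) := by apply Complex.ext <;> simp
          rw [h5, hx, hn3]; simp
        rw [← e2]; exact hz
      · right; right; right; right; right; right; right
        have e2 : u = -w := by
          have h5 : u = -(u * conj ⟨-1, 0⟩) := by apply Complex.ext <;> simp
          rw [h5, hx, hn4]; simp
        rw [← e2]; exact hz

end Pool.Agent.R175.Hexa
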