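import Mathlib
import Pool.Agent.R175.Hexa.Gap

/-!
# `P` is a non-convex hexagon
-/

set_option autoImplicit false

namespace Pool.Agent.R175.Hexa

open Set Complex ComplexConjugate Pool.Agent.R175.Disk

/-- The vertices. -/
def vx : Fin 6 → ℂ := ![⟨0, 0⟩, ⟨1, 1⟩, ⟨0, 2⟩, ⟨-3, 2⟩, ⟨-3, -2⟩, ⟨0, -2⟩]

/-- The triangle `0, 2i, -1+i`. -/
def D : Set ℂ := {z | z.re ≤ 0 ∧ z.im ≤ 2 + z.re ∧ -z.re ≤ z.im}

theorem D_closed : IsClosed D := by
  apply IsClosed.inter (isClosed_le Complex.continuous_re continuous_const)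
  exact IsClosed.inter (isClosed_le Complex.continuous_im (continuous_const.add Complex.continuous_re))
    (isClosed_le Complex.continuous_re.neg Complex.continuous_im)

theorem D_sub : D ⊆ R := by
  rintro z ⟨a, b, c⟩
  exact ⟨by linarith, a, by linarith, by linarith⟩

theorem R_compact : IsCompact R := P_compact.of_isClosed_subset R_closed subset_union_left
theorem T_compact : IsCompact T := P_compact.of_isClosed_subset T_closed subset_union_right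
theorem D_compact : IsCompact D := R_compact.of_isClosed_subset D_closed D_sub

theorem D_convex : Convex ℝ D := by
  intro z hz w hw a b ha hb hab
  obtain ⟨z1, z2, z3⟩ := hz
  obtain ⟨w1, w2, w3⟩ := hw
  have e : b = 1 - a := by linarith
  subst e
  refine ⟨?_, ?_, ?_⟩ <;> simp <;> nlinarith

theorem TD_eq : T ∪ D = {z : ℂ | z.re ≤ z.im ∧ z.im ≤ 2 - z.re ∧ z.im ≤ 2 + z.re ∧ -z.re ≤ z.im} := by
  ext z
  constructor
  · rintro (⟨a, b, c⟩ | ⟨a, b, c⟩)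
    · exact ⟨b, c, by linarith, by linarith⟩
    · exact ⟨by linarith, by linarith, b, c⟩
  · rintro ⟨a, b, c, d⟩
    rcases le_total z.re 0 with h | h
    · exact Or.inr ⟨h, c, d⟩
    · exact Or.inl ⟨h, a, b⟩

theorem sq_int {z : ℂ} (h1 : z.re < z.im) (h2 : z.im < 2 - z.re) (h3 : z.im < 2 + z.re) (h4 : -z.re < z.im) :
    z ∈ interior (T ∪ D) := by
  rw [mem_interior]
  refine ⟨{z | z.re < z.im ∧ z.im < 2 - z.re ∧ z.im < 2 + z.re ∧ -z.re < z.im}, ?_, ?_, h1, h2, h3, h4⟩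
  · rintro w ⟨a, b, c, d⟩
    rw [TD_eq]
    exact ⟨a.le, b.le, c.le, d.le⟩
  · apply IsOpen.inter (isOpen_lt Complex.continuous_re Complex.continuous_im)
    apply IsOpen.inter (isOpen_lt Complex.continuous_im (continuous_const.sub Complex.continuous_re))
    exact IsOpen.inter (isOpen_lt Complex.continuous_im (continuous_const.add Complex.continuous_re))
      (isOpen_lt Complex.continuous_re.neg Complex.continuous_im)

theorem P_disk : IsDisk P := by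
  have hTD : IsDisk (T ∪ D) := by
    apply disk_of_convex
    · rw [TD_eq]
      intro z hz w hw a b ha hb hab
      obtain ⟨z1, z2, z3, z4⟩ := hz
      obtain ⟨w1, w2, w3, w4⟩ := hw
      have e : b = 1 - a := by linarith
      subst e
      refine ⟨?_, ?_, ?_, ?_⟩ <;> simp <;> nlinarith
    · exact T_compact.union D_compact
    · exact ⟨⟨0, 1⟩, sq_int (by norm_num) (by norm_num) (by norm_num) (by norm_num)⟩
  have hp : (⟨-1 / 4, 1⟩ : ℂ) ∈ interior D := by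
    rw [mem_interior]
    refine ⟨{z | z.re < 0 ∧ z.im < 2 + z.re ∧ -z.re < z.im}, ?_, ?_, ?_⟩
    · rintro w ⟨a, b, c⟩
      exact ⟨a.le, b.le, c.le⟩
    · apply IsOpen.inter (isOpen_lt Complex.continuous_re continuous_const)
      exact IsOpen.inter (isOpen_lt Complex.continuous_im (continuous_const.add Complex.continuous_re))
        (isOpen_lt Complex.continuous_re.neg Complex.continuous_im)
    · refine ⟨?_, ?_, ?_⟩ <;> norm_num
  have hre : ∀ A : Set ℂ, IsClosed A → (∀ w ∈ A, w.re ≤ 0) → ∀ z ∈ A, z.re = 0 → z ∈ frontier A := by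
    intro A hA hs z hz h0
    refine ⟨subset_closure hz, ?_⟩
    intro hi
    have h1 : z ∈ interior {w : ℂ | w.re ≤ 0} := interior_mono (fun w hw => hs w hw) hi
    rw [Complex.interior_setOf_re_le] at h1
    have : z.re < 0 := h1
    linarith
  have h1 := glue T_closed R_convex R_compact D_convex D_compact hp D_sub ?_ hTD
  · unfold P
    rw [union_comm]
    exact h1
  · intro z hz hz'
    have h0 : z.re = 0 := le_antisymm hz'.2.1 hz.1
    refine ⟨hre R R_closed (fun w hw => hw.2.1) z hz' h0, hre D D_closed (fun w hw => hw.1) z ?_ h0⟩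
    exact ⟨h0.le, by linarith [hz.2.2], by linarith [hz.2.1]⟩

theorem P_not_convex : ¬ Convex ℝ P := by
  intro h
  have h1 : (⟨1, 1⟩ : ℂ) ∈ P := Or.inr ⟨by norm_num, by norm_num, by norm_num⟩
  have h2 : (⟨0, -2⟩ : ℂ) ∈ P := Or.inl ⟨by norm_num, by norm_num, by norm_num, by norm_num⟩
  have h3 := h h1 h2 (by norm_num : (0 : ℝ) ≤ 1 / 2) (by norm_num : (0 : ℝ) ≤ 1 / 2) (by norm_num)
  revert h3
  apply notP
  right; right; right; right; left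
  simp

/-- Coordinates of the points of the sides. -/
def Side : Fin 6 → ℂ → Prop :=
  ![fun z => z.re = z.im ∧ 0 ≤ z.re ∧ z.re ≤ 1, fun z => z.im = 2 - z.re ∧ 0 ≤ z.re ∧ z.re ≤ 1,
    fun z => z.im = 2 ∧ -3 ≤ z.re ∧ z.re ≤ 0, fun z => z.re = -3 ∧ -2 ≤ z.im ∧ z.im ≤ 2,
    fun z => z.im = -2 ∧ -3 ≤ z.re ∧ z.re ≤ 0, fun z => z.re = 0 ∧ -2 ≤ z.im ∧ z.im ≤ 0]

theorem seg_mem {a b z : ℂ} : z ∈ segment ℝ a b ↔ ∃ t : ℝ, 0 ≤ t ∧ t ≤ 1 ∧ z.re = a.re + t * (b.re - a.re) ∧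
    z.im = a.im + t * (b.im - a.im) := by
  rw [segment_eq_image']
  constructor
  · rintro ⟨t, ⟨h0, h1⟩, rfl⟩
    exact ⟨t, h0, h1, by simp, by simp⟩
  · rintro ⟨t, h0, h1, h2, h3⟩
    refine ⟨t, ⟨h0, h1⟩, ?_⟩
    apply Complex.ext
    · simp [h2]
    · simp [h3]

theorem side_iff (i : Fin 6) (z : ℂ) : z ∈ segment ℝ (vx i) (vx (i + 1)) ↔ Side i z := by
  rw [seg_mem]
  fin_cases i
  · change (∃ t : ℝ, 0 ≤ t ∧ t ≤ 1 ∧ z.re = 0 + t * (1 - 0) ∧ z.im = 0 + t * (1 - 0)) ↔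
      (z.re = z.im ∧ 0 ≤ z.re ∧ z.re ≤ 1)
    constructor
    · rintro ⟨t, h0, h1, h2, h3⟩
      refine ⟨?_, ?_, ?_⟩ <;> linarith
    · rintro ⟨h1, h2, h3⟩
      refine ⟨z.re, h2, h3, ?_, ?_⟩ <;> linarith
  · change (∃ t : ℝ, 0 ≤ t ∧ t ≤ 1 ∧ z.re = 1 + t * (0 - 1) ∧ z.im = 1 + t * (2 - 1)) ↔
      (z.im = 2 - z.re ∧ 0 ≤ z.re ∧ z.re ≤ 1)
    constructor
    · rintro ⟨t, h0, h1, h2, h3⟩
      refine ⟨?_, ?_, ?_⟩ <;> linarith
    · rintro ⟨h1, h2, h3⟩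
      refine ⟨1 - z.re, by linarith, by linarith, ?_, ?_⟩ <;> linarith
  · change (∃ t : ℝ, 0 ≤ t ∧ t ≤ 1 ∧ z.re = 0 + t * (-3 - 0) ∧ z.im = 2 + t * (2 - 2)) ↔
      (z.im = 2 ∧ -3 ≤ z.re ∧ z.re ≤ 0)
    constructor
    · rintro ⟨t, h0, h1, h2, h3⟩
      refine ⟨?_, ?_, ?_⟩ <;> linarith
    · rintro ⟨h1, h2, h3⟩
      refine ⟨-z.re / 3, by linarith, by linarith, ?_, ?_⟩ <;> linarith
  · change (∃ t : ℝ, 0 ≤ t ∧ t ≤ 1 ∧ z.re = -3 + t * (-3 - -3) ∧ z.im = 2 + t * (-2 - 2)) ↔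
      (z.re = -3 ∧ -2 ≤ z.im ∧ z.im ≤ 2)
    constructor
    · rintro ⟨t, h0, h1, h2, h3⟩
      refine ⟨?_, ?_, ?_⟩ <;> linarith
    · rintro ⟨h1, h2, h3⟩
      refine ⟨(2 - z.im) / 4, by linarith, by linarith, ?_, ?_⟩ <;> linarith
  · change (∃ t : ℝ, 0 ≤ t ∧ t ≤ 1 ∧ z.re = -3 + t * (0 - -3) ∧ z.im = -2 + t * (-2 - -2)) ↔
      (z.im = -2 ∧ -3 ≤ z.re ∧ z.re ≤ 0)
    constructor
    · rintro ⟨t, h0, h1, h2, h3⟩
      refine ⟨?_, ?_, ?_⟩ <;> linarith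
    · rintro ⟨h1, h2, h3⟩
      refine ⟨(z.re + 3) / 3, by linarith, by linarith, ?_, ?_⟩ <;> linarith
  · change (∃ t : ℝ, 0 ≤ t ∧ t ≤ 1 ∧ z.re = 0 + t * (0 - 0) ∧ z.im = -2 + t * (0 - -2)) ↔
      (z.re = 0 ∧ -2 ≤ z.im ∧ z.im ≤ 0)
    constructor
    · rintro ⟨t, h0, h1, h2, h3⟩
      refine ⟨?_, ?_, ?_⟩ <;> linarith
    · rintro ⟨h1, h2, h3⟩
      refine ⟨(z.im + 2) / 2, by linarith, by linarith, ?_, ?_⟩ <;> linarith

theorem not_int {z d : ℂ} (h : ∀ ε : ℝ, 0 < ε → z + ε * d ∉ P) : z ∉ interior P := by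
  intro hz
  have h1 : Filter.Tendsto (fun ε : ℝ => z + ε * d) (nhdsWithin 0 (Ioi 0)) (nhds z) := by
    have h2 : Filter.Tendsto (fun ε : ℝ => z + ε * d) (nhds 0) (nhds (z + ((0 : ℝ) : ℂ) * d)) := by
      apply Continuous.tendsto
      fun_prop
    rw [Complex.ofReal_zero, zero_mul, add_zero] at h2
    exact h2.mono_left nhdsWithin_le_nhds
  have h3 := h1.eventually (isOpen_interior.mem_nhds hz)
  have h4 : ∀ᶠ ε : ℝ in nhdsWithin 0 (Ioi 0), 0 < ε := self_mem_nhdsWithin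
  obtain ⟨ε, hε, hε0⟩ := (h3.and h4).exists
  exact h ε hε0 (interior_subset hε)

theorem P_frontier : frontier P = ⋃ i : Fin 6, segment ℝ (vx i) (vx (i + 1)) := by
  ext z
  rw [P_closed.frontier_eq, mem_iUnion]
  simp only [side_iff]
  constructor
  · rintro ⟨hz, hi⟩
    have hsq : ¬ (z.re < z.im ∧ z.im < 2 - z.re ∧ z.im < 2 + z.re ∧ -z.re < z.im) := by
      rintro ⟨a, b, c, d⟩
      apply hi
      refine interior_mono ?_ (sq_int a b c d)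
      rintro w (hw | hw)
      · exact Or.inr hw
      · exact Or.inl (D_sub hw)
    rcases hz with ⟨a, b, c, d⟩ | ⟨a, b, c⟩
    · rcases lt_or_eq_of_le a with ha | ha
      · rcases lt_or_eq_of_le c with hc | hc
        · rcases lt_or_eq_of_le d with hd | hd
          · rcases lt_or_eq_of_le b with hb | hb
            · exact absurd (intP_R ha hb hc hd) hi
            · rcases le_or_gt z.im 0 with h | h
              · exact ⟨5, hb, c, h⟩
              · exact absurd ⟨by linarith, by linarith, by linarith, by linarith⟩ hsq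
          · exact ⟨2, hd, a, b⟩
        · exact ⟨4, hc.symm, a, b⟩
      · exact ⟨3, ha.symm, c, d⟩
    · rcases lt_or_eq_of_le b with hb | hb
      · rcases lt_or_eq_of_le c with hc | hc
        · exact absurd ⟨hb, hc, by linarith, by linarith⟩ hsq
        · exact ⟨1, hc, a, by linarith⟩
      · exact ⟨0, hb, a, by linarith⟩
  · rintro ⟨i, hz⟩
    fin_cases i
    · obtain ⟨h1, h2, h3⟩ : z.re = z.im ∧ 0 ≤ z.re ∧ z.re ≤ 1 := hz
      refine ⟨Or.inr ⟨h2, h1.le, by linarith⟩, not_int (d := ⟨1, -1⟩) ?_⟩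
      intro ε hε
      apply notP
      right; right; right; right; left
      constructor <;> simp <;> linarith
    · obtain ⟨h1, h2, h3⟩ : z.im = 2 - z.re ∧ 0 ≤ z.re ∧ z.re ≤ 1 := hz
      refine ⟨Or.inr ⟨h2, by linarith, h1.le⟩, not_int (d := ⟨1, 1⟩) ?_⟩
      intro ε hε
      apply notP
      right; right; right; right; right
      constructor <;> simp <;> linarith
    · obtain ⟨h1, h2, h3⟩ : z.im = 2 ∧ -3 ≤ z.re ∧ z.re ≤ 0 := hz
      refine ⟨Or.inl ⟨h2, h3, by linarith, h1.le⟩, not_int (d := ⟨0, 1⟩) ?_⟩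
      intro ε hε
      apply notP
      right; right; left
      simp; linarith
    · obtain ⟨h1, h2, h3⟩ : z.re = -3 ∧ -2 ≤ z.im ∧ z.im ≤ 2 := hz
      refine ⟨Or.inl ⟨h1.ge, by linarith, h2, h3⟩, not_int (d := ⟨-1, 0⟩) ?_⟩
      intro ε hε
      apply notP
      left
      simp; linarith
    · obtain ⟨h1, h2, h3⟩ : z.im = -2 ∧ -3 ≤ z.re ∧ z.re ≤ 0 := hz
      refine ⟨Or.inl ⟨h2, h3, h1.ge, by linarith⟩, not_int (d := ⟨0, -1⟩) ?_⟩
      intro ε hε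
      apply notP
      right; left
      simp; linarith
    · obtain ⟨h1, h2, h3⟩ : z.re = 0 ∧ -2 ≤ z.im ∧ z.im ≤ 0 := hz
      refine ⟨Or.inl ⟨by linarith, h1.le, h2, by linarith⟩, not_int (d := ⟨1, 0⟩) ?_⟩
      intro ε hε
      apply notP
      right; right; right; right; left
      constructor <;> simp <;> linarith

theorem vx_inj : Function.Injective vx := by
  intro i j h
  have h1 := congrArg Complex.re h
  have h2 := congrArg Complex.im h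
  fin_cases i <;> fin_cases j <;>
    first
      | rfl
      | (exfalso; norm_num [vx] at h1; done)
      | (exfalso; norm_num [vx] at h2; done)

theorem P_simple (i j : Fin 6) (hij : i ≠ j) : segment ℝ (vx i) (vx (i + 1)) ∩ segment ℝ (vx j) (vx (j + 1)) ⊆
    {vx i, vx (i + 1)} ∩ {vx j, vx (j + 1)} := by
  rintro z ⟨h1, h2⟩
  rw [side_iff] at h1 h2
  have key : ∀ k : Fin 6, z.re = (vx k).re → z.im = (vx k).im → z = vx k := fun k a b => Complex.ext a b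
  have h0 : Side 0 z ↔ z.re = z.im ∧ 0 ≤ z.re ∧ z.re ≤ 1 := Iff.rfl
  have h1' : Side 1 z ↔ z.im = 2 - z.re ∧ 0 ≤ z.re ∧ z.re ≤ 1 := Iff.rfl
  have h2' : Side 2 z ↔ z.im = 2 ∧ -3 ≤ z.re ∧ z.re ≤ 0 := Iff.rfl
  have h3' : Side 3 z ↔ z.re = -3 ∧ -2 ≤ z.im ∧ z.im ≤ 2 := Iff.rfl
  have h4' : Side 4 z ↔ z.im = -2 ∧ -3 ≤ z.re ∧ z.re ≤ 0 := Iff.rfl
  have h5' : Side 5 z ↔ z.re = 0 ∧ -2 ≤ z.im ∧ z.im ≤ 0 := Iff.rfl
  have r01 : Side 0 z → Side 1 z → z = vx 1 := by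
    rw [h0, h1']; rintro ⟨a, b, c⟩ ⟨a', b', c'⟩; apply Complex.ext <;> simp [vx] <;> linarith
  have r02 : Side 0 z → Side 2 z → False := by
    rw [h0, h2']; rintro ⟨a, b, c⟩ ⟨a', b', c'⟩; linarith
  have r03 : Side 0 z → Side 3 z → False := by
    rw [h0, h3']; rintro ⟨a, b, c⟩ ⟨a', b', c'⟩; linarith
  have r04 : Side 0 z → Side 4 z → False := by
    rw [h0, h4']; rintro ⟨a, b, c⟩ ⟨a', b', c'⟩; linarith
  have r05 : Side 0 z → Side 5 z → z = vx 0 := by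
    rw [h0, h5']; rintro ⟨a, b, c⟩ ⟨a', b', c'⟩; apply Complex.ext <;> simp [vx] <;> linarith
  have r12 : Side 1 z → Side 2 z → z = vx 2 := by
    rw [h1', h2']; rintro ⟨a, b, c⟩ ⟨a', b', c'⟩; apply Complex.ext <;> simp [vx] <;> linarith
  have r13 : Side 1 z → Side 3 z → False := by
    rw [h1', h3']; rintro ⟨a, b, c⟩ ⟨a', b', c'⟩; linarith
  have r14 : Side 1 z → Side 4 z → False := by
    rw [h1', h4']; rintro ⟨a, b, c⟩ ⟨a', b', c'⟩; linarith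
  have r15 : Side 1 z → Side 5 z → False := by
    rw [h1', h5']; rintro ⟨a, b, c⟩ ⟨a', b', c'⟩; linarith
  have r23 : Side 2 z → Side 3 z → z = vx 3 := by
    rw [h2', h3']; rintro ⟨a, b, c⟩ ⟨a', b', c'⟩; apply Complex.ext <;> simp [vx] <;> linarith
  have r24 : Side 2 z → Side 4 z → False := by
    rw [h2', h4']; rintro ⟨a, b, c⟩ ⟨a', b', c'⟩; linarith
  have r25 : Side 2 z → Side 5 z → False := by
    rw [h2', h5']; rintro ⟨a, b, c⟩ ⟨a', b', c'⟩; linarith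
  have r34 : Side 3 z → Side 4 z → z = vx 4 := by
    rw [h3', h4']; rintro ⟨a, b, c⟩ ⟨a', b', c'⟩; apply Complex.ext <;> simp [vx] <;> linarith
  have r35 : Side 3 z → Side 5 z → False := by
    rw [h3', h5']; rintro ⟨a, b, c⟩ ⟨a', b', c'⟩; linarith
  have r45 : Side 4 z → Side 5 z → z = vx 5 := by
    rw [h4', h5']; rintro ⟨a, b, c⟩ ⟨a', b', c'⟩; apply Complex.ext <;> simp [vx] <;> linarith
  fin_cases i <;> fin_cases j
  · exact absurd rfl hij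
  · rw [r01 h1 h2]; exact ⟨Or.inr rfl, Or.inl rfl⟩
  · exact (r02 h1 h2).elim
  · exact (r03 h1 h2).elim
  · exact (r04 h1 h2).elim
  · rw [r05 h1 h2]; exact ⟨Or.inl rfl, Or.inr rfl⟩
  · rw [r01 h2 h1]; exact ⟨Or.inl rfl, Or.inr rfl⟩
  · exact absurd rfl hij
  · rw [r12 h1 h2]; exact ⟨Or.inr rfl, Or.inl rfl⟩
  · exact (r13 h1 h2).elim
  · exact (r14 h1 h2).elim
  · exact (r15 h1 h2).elim
  · exact (r02 h2 h1).elim
  · rw [r12 h2 h1]; exact ⟨Or.inl rfl, Or.inr rfl⟩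
  · exact absurd rfl hij
  · rw [r23 h1 h2]; exact ⟨Or.inr rfl, Or.inl rfl⟩
  · exact (r24 h1 h2).elim
  · exact (r25 h1 h2).elim
  · exact (r03 h2 h1).elim
  · exact (r13 h2 h1).elim
  · rw [r23 h2 h1]; exact ⟨Or.inl rfl, Or.inr rfl⟩
  · exact absurd rfl hij
  · rw [r34 h1 h2]; exact ⟨Or.inr rfl, Or.inl rfl⟩
  · exact (r35 h1 h2).elim
  · exact (r04 h2 h1).elim
  · exact (r14 h2 h1).elim
  · exact (r24 h2 h1).elim
  · rw [r34 h2 h1]; exact ⟨Or.inl rfl, Or.inr rfl⟩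
  · exact absurd rfl hij
  · rw [r45 h1 h2]; exact ⟨Or.inr rfl, Or.inl rfl⟩
  · rw [r05 h2 h1]; exact ⟨Or.inr rfl, Or.inl rfl⟩
  · exact (r15 h2 h1).elim
  · exact (r25 h2 h1).elim
  · exact (r35 h2 h1).elim
  · rw [r45 h2 h1]; exact ⟨Or.inl rfl, Or.inr rfl⟩
  · exact absurd rfl hij

theorem not_collinear {a b c : ℂ} (h : ((b - a) * conj (c - a)).im ≠ 0) : ¬ Collinear ℝ ({a, b, c} : Set ℂ) := by
  intro hc
  rw [collinear_iff_of_mem (p₀ := a) (by simp)] at hc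
  obtain ⟨w, hw⟩ := hc
  obtain ⟨r, hr⟩ := hw b (by simp)
  obtain ⟨s, hs⟩ := hw c (by simp)
  apply h
  rw [hr, hs]
  simp
  ring

theorem P_corner (i : Fin 6) : ¬ Collinear ℝ ({vx i, vx (i + 1), vx (i + 2)} : Set ℂ) := by
  apply not_collinear
  fin_cases i
  · change (((⟨1, 1⟩ : ℂ) - ⟨0, 0⟩) * conj ((⟨0, 2⟩ : ℂ) - ⟨0, 0⟩)).im ≠ 0
    simp
  · change (((⟨0, 2⟩ : ℂ) - ⟨1, 1⟩) * conj ((⟨-3, 2⟩ : ℂ) - ⟨1, 1⟩)).im ≠ 0
    norm_num
  · change (((⟨-3, 2⟩ : ℂ) - ⟨0, 2⟩) * conj ((⟨-3, -2⟩ : ℂ) - ⟨0, 2⟩)).im ≠ 0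
    norm_num
  · change (((⟨-3, -2⟩ : ℂ) - ⟨-3, 2⟩) * conj ((⟨0, -2⟩ : ℂ) - ⟨-3, 2⟩)).im ≠ 0
    norm_num
  · change (((⟨0, -2⟩ : ℂ) - ⟨-3, -2⟩) * conj ((⟨0, 0⟩ : ℂ) - ⟨-3, -2⟩)).im ≠ 0
    simp
  · change (((⟨0, 0⟩ : ℂ) - ⟨0, -2⟩) * conj ((⟨1, 1⟩ : ℂ) - ⟨0, -2⟩)).im ≠ 0
    simp

end Pool.Agent.R175.Hexa
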