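import Mathlib
import Pool.Agent.R175.Hexa.Gap

/-!
# The placements of a new tile at the three gaps that lead to overlaps
-/

set_option autoImplicit false

namespace Pool.Agent.R175.Hexa

open Set Complex ComplexConjugate Pool.Agent.R175.Disk MeasureTheory Topology

variable {H : Subgroup (ℂ ≃ᵢ ℂ)}

theorem g1_1p (hS : Sys H) {h k : ℂ ≃ᵢ ℂ} (hh : h ∈ H) (hk : k ∈ H) (fh : ∀ z, h z = I * z + 2)
    {S : ℝ} (hS1 : 0.707 < S) (hS2 : S < 0.7072)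
    (fk : ∀ z, k z = I * ⟨-S, -S⟩ * (z - ⟨1, 1⟩) + ⟨-2, 2⟩) : False := by
  have a1 : (1 : ℂ ≃ᵢ ℂ) ⟨-1, 0⟩ = ⟨-1, 0⟩ := by
    rfl
  have b1 : (k * h : ℂ ≃ᵢ ℂ) ⟨-1, 0⟩ = ⟨-2 - 1 * S, 2 - 3 * S⟩ := by
    simp only [IsometryEquiv.mul_apply, fh, fk]
    apply Complex.ext <;> simp <;> try ring_nf
  have b2 : (k * h : ℂ ≃ᵢ ℂ) ⟨1, 0⟩ = ⟨-2 + 1 * S, 2 - 1 * S⟩ := by
    simp only [IsometryEquiv.mul_apply, fh, fk]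
    apply Complex.ext <;> simp <;> try ring_nf
  have a2 : (1 : ℂ ≃ᵢ ℂ) ⟨1, 0⟩ = ⟨1, 0⟩ := by
    rfl
  refine cert hS (a := 1) (b := k * h) H.one_mem (H.mul_mem hk hh) ⟨-1, 0⟩ ⟨1, 0⟩ ?_ ?_ ?_ ?_
  · rw [a1]
    apply intP_R <;> simp only [] <;> linarith
  · rw [b1]
    apply intP_R <;> simp only [] <;> linarith
  · rw [b2]; left
    refine ⟨?_, ?_, ?_, ?_⟩ <;> simp only [] <;> linarith
  · rw [a2]; apply notP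
    right; right; right; right; left; constructor <;> simp only [] <;> linarith

theorem g1_1m (hS : Sys H) {h k : ℂ ≃ᵢ ℂ} (hh : h ∈ H) (hk : k ∈ H) (fh : ∀ z, h z = I * z + 2)
    {S : ℝ} (hS1 : 0.707 < S) (hS2 : S < 0.7072)
    (fk : ∀ z, k z = I * ⟨-S, -S⟩ * conj (z - ⟨1, 1⟩) + ⟨-2, 2⟩) : False := by
  have a1 : (1 : ℂ ≃ᵢ ℂ) ⟨-1/2, -1⟩ = ⟨-1/2, -1⟩ := by
    rfl
  have b1 : (h * k : ℂ ≃ᵢ ℂ) ⟨-1/2, -1⟩ = ⟨0 - 7/2 * S, -2 + 1/2 * S⟩ := by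
    simp only [IsometryEquiv.mul_apply, fh, fk]
    apply Complex.ext <;> simp <;> try ring_nf
  have b2 : (h * k : ℂ ≃ᵢ ℂ) ⟨1, 0⟩ = ⟨0 - 1 * S, -2 + 1 * S⟩ := by
    simp only [IsometryEquiv.mul_apply, fh, fk]
    apply Complex.ext <;> simp <;> try ring_nf
  have a2 : (1 : ℂ ≃ᵢ ℂ) ⟨1, 0⟩ = ⟨1, 0⟩ := by
    rfl
  refine cert hS (a := 1) (b := h * k) H.one_mem (H.mul_mem hh hk) ⟨-1/2, -1⟩ ⟨1, 0⟩ ?_ ?_ ?_ ?_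
  · rw [a1]
    apply intP_R <;> simp only [] <;> linarith
  · rw [b1]
    apply intP_R <;> simp only [] <;> linarith
  · rw [b2]; left
    refine ⟨?_, ?_, ?_, ?_⟩ <;> simp only [] <;> linarith
  · rw [a2]; apply notP
    right; right; right; right; left; constructor <;> simp only [] <;> linarith

theorem g1_3m (hS : Sys H) {h k : ℂ ≃ᵢ ℂ} (hh : h ∈ H) (hk : k ∈ H) (fh : ∀ z, h z = I * z + 2)
    (fk : ∀ z, k z = I * conj (z - ⟨-3, 2⟩) + ⟨-2, 2⟩) : False := by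
  have a1 : (1 : ℂ ≃ᵢ ℂ) ⟨-2, 0⟩ = ⟨-2, 0⟩ := by
    rfl
  have b1 : (k * k : ℂ ≃ᵢ ℂ) ⟨-2, 0⟩ = ⟨-1, 1⟩ := by
    simp only [IsometryEquiv.mul_apply, fk]
    apply Complex.ext <;> simp <;> try ring_nf
  have b2 : (k * k : ℂ ≃ᵢ ℂ) ⟨-1, -3⟩ = ⟨0, -2⟩ := by
    simp only [IsometryEquiv.mul_apply, fk]
    apply Complex.ext <;> simp <;> try ring_nf
  have a2 : (1 : ℂ ≃ᵢ ℂ) ⟨-1, -3⟩ = ⟨-1, -3⟩ := by
    rfl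
  refine cert hS (a := 1) (b := k * k) H.one_mem (H.mul_mem hk hk) ⟨-2, 0⟩ ⟨-1, -3⟩ ?_ ?_ ?_ ?_
  · rw [a1]
    apply intP_R <;> simp only [] <;> linarith
  · rw [b1]
    apply intP_R <;> simp only [] <;> linarith
  · rw [b2]; left
    refine ⟨?_, ?_, ?_, ?_⟩ <;> simp only [] <;> linarith
  · rw [a2]; apply notP
    right; left; simp only []; linarith

theorem g1_4m (hS : Sys H) {h k : ℂ ≃ᵢ ℂ} (hh : h ∈ H) (hk : k ∈ H) (fh : ∀ z, h z = I * z + 2)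
    (fk : ∀ z, k z = I * I * conj (z - ⟨-3, -2⟩) + ⟨-2, 2⟩) : False := by
  have a1 : (1 : ℂ ≃ᵢ ℂ) ⟨-1, 1⟩ = ⟨-1, 1⟩ := by
    rfl
  have b1 : (k * h * k : ℂ ≃ᵢ ℂ) ⟨-1, 1⟩ = ⟨-2, 0⟩ := by
    simp only [IsometryEquiv.mul_apply, fh, fk]
    apply Complex.ext <;> simp <;> try ring_nf
  have b2 : (k * h * k : ℂ ≃ᵢ ℂ) ⟨1, 0⟩ = ⟨-3, -2⟩ := by
    simp only [IsometryEquiv.mul_apply, fh, fk]
    apply Complex.ext <;> simp <;> try ring_nf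
  have a2 : (1 : ℂ ≃ᵢ ℂ) ⟨1, 0⟩ = ⟨1, 0⟩ := by
    rfl
  refine cert hS (a := 1) (b := k * h * k) H.one_mem (H.mul_mem (H.mul_mem hk hh) hk) ⟨-1, 1⟩ ⟨1, 0⟩ ?_ ?_ ?_ ?_
  · rw [a1]
    apply intP_R <;> simp only [] <;> linarith
  · rw [b1]
    apply intP_R <;> simp only [] <;> linarith
  · rw [b2]; left
    refine ⟨?_, ?_, ?_, ?_⟩ <;> simp only [] <;> linarith
  · rw [a2]; apply notP
    right; right; right; right; left; constructor <;> simp only [] <;> linarith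

theorem g1_5p (hS : Sys H) {h k : ℂ ≃ᵢ ℂ} (hh : h ∈ H) (hk : k ∈ H) (fh : ∀ z, h z = I * z + 2)
    (fk : ∀ z, k z = -(I * I) * (z - ⟨0, -2⟩) + ⟨-2, 2⟩) : False := by
  have a1 : (1 : ℂ ≃ᵢ ℂ) ⟨1/4, 1/2⟩ = ⟨1/4, 1/2⟩ := by
    rfl
  have b1 : (h * k : ℂ ≃ᵢ ℂ) ⟨1/4, 1/2⟩ = ⟨-5/2, -7/4⟩ := by
    simp only [IsometryEquiv.mul_apply, fh, fk]
    apply Complex.ext <;> simp <;> try ring_nf
  have b2 : (h * k : ℂ ≃ᵢ ℂ) ⟨1, 0⟩ = ⟨-2, -1⟩ := by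
    simp only [IsometryEquiv.mul_apply, fh, fk]
    apply Complex.ext <;> simp <;> try ring_nf
  have a2 : (1 : ℂ ≃ᵢ ℂ) ⟨1, 0⟩ = ⟨1, 0⟩ := by
    rfl
  refine cert hS (a := 1) (b := h * k) H.one_mem (H.mul_mem hh hk) ⟨1/4, 1/2⟩ ⟨1, 0⟩ ?_ ?_ ?_ ?_
  · rw [a1]
    apply intP_T <;> simp only [] <;> linarith
  · rw [b1]
    apply intP_R <;> simp only [] <;> linarith
  · rw [b2]; left
    refine ⟨?_, ?_, ?_, ?_⟩ <;> simp only [] <;> linarith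
  · rw [a2]; apply notP
    right; right; right; right; left; constructor <;> simp only [] <;> linarith

theorem g1_5m (hS : Sys H) {h k : ℂ ≃ᵢ ℂ} (hh : h ∈ H) (hk : k ∈ H) (fh : ∀ z, h z = I * z + 2)
    (fk : ∀ z, k z = -I * conj (z - ⟨0, -2⟩) + ⟨-2, 2⟩) : False := by
  have a1 : (1 : ℂ ≃ᵢ ℂ) ⟨-2, 0⟩ = ⟨-2, 0⟩ := by
    rfl
  have b1 : (k * h : ℂ ≃ᵢ ℂ) ⟨-2, 0⟩ = ⟨-2, 0⟩ := by
    simp only [IsometryEquiv.mul_apply, fh, fk]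
    apply Complex.ext <;> simp <;> try ring_nf
  have b2 : (k * h : ℂ ≃ᵢ ℂ) ⟨-4, 0⟩ = ⟨0, 0⟩ := by
    simp only [IsometryEquiv.mul_apply, fh, fk]
    apply Complex.ext <;> simp <;> try ring_nf
  have a2 : (1 : ℂ ≃ᵢ ℂ) ⟨-4, 0⟩ = ⟨-4, 0⟩ := by
    rfl
  refine cert hS (a := 1) (b := k * h) H.one_mem (H.mul_mem hk hh) ⟨-2, 0⟩ ⟨-4, 0⟩ ?_ ?_ ?_ ?_
  · rw [a1]
    apply intP_R <;> simp only [] <;> linarith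
  · rw [b1]
    apply intP_R <;> simp only [] <;> linarith
  · rw [b2]; left
    refine ⟨?_, ?_, ?_, ?_⟩ <;> simp only [] <;> linarith
  · rw [a2]; apply notP
    left; simp only []; linarith

theorem g2_1p (hS : Sys H) {h k g : ℂ ≃ᵢ ℂ} (hh : h ∈ H) (hk : k ∈ H) (fh : ∀ z, h z = I * z + 2)
    (hg : g ∈ H) (fg : ∀ z, g z = -z + ⟨-5, 4⟩)
    {S : ℝ} (hS1 : 0.707 < S) (hS2 : S < 0.7072)
    (fk : ∀ z, k z = (-1) * ⟨-S, -S⟩ * (z - ⟨1, 1⟩) + ⟨-3, -1⟩) : False := by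
  have a1 : (1 : ℂ ≃ᵢ ℂ) ⟨-1, 0⟩ = ⟨-1, 0⟩ := by
    rfl
  have b1 : (k * h : ℂ ≃ᵢ ℂ) ⟨-1, 0⟩ = ⟨-3 + 3 * S, -1 - 1 * S⟩ := by
    simp only [IsometryEquiv.mul_apply, fh, fk]
    apply Complex.ext <;> simp <;> try ring_nf
  have b2 : (k * h : ℂ ≃ᵢ ℂ) ⟨1, 0⟩ = ⟨-3 + 1 * S, -1 + 1 * S⟩ := by
    simp only [IsometryEquiv.mul_apply, fh, fk]
    apply Complex.ext <;> simp <;> try ring_nf
  have a2 : (1 : ℂ ≃ᵢ ℂ) ⟨1, 0⟩ = ⟨1, 0⟩ := by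
    rfl
  refine cert hS (a := 1) (b := k * h) H.one_mem (H.mul_mem hk hh) ⟨-1, 0⟩ ⟨1, 0⟩ ?_ ?_ ?_ ?_
  · rw [a1]
    apply intP_R <;> simp only [] <;> linarith
  · rw [b1]
    apply intP_R <;> simp only [] <;> linarith
  · rw [b2]; left
    refine ⟨?_, ?_, ?_, ?_⟩ <;> simp only [] <;> linarith
  · rw [a2]; apply notP
    right; right; right; right; left; constructor <;> simp only [] <;> linarith

theorem g2_1m (hS : Sys H) {h k g : ℂ ≃ᵢ ℂ} (hh : h ∈ H) (hk : k ∈ H) (fh : ∀ z, h z = I * z + 2)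
    (hg : g ∈ H) (fg : ∀ z, g z = -z + ⟨-5, 4⟩)
    {S : ℝ} (hS1 : 0.707 < S) (hS2 : S < 0.7072)
    (fk : ∀ z, k z = (-1) * ⟨-S, -S⟩ * conj (z - ⟨1, 1⟩) + ⟨-3, -1⟩) : False := by
  have a1 : (1 : ℂ ≃ᵢ ℂ) ⟨-1/2, -1⟩ = ⟨-1/2, -1⟩ := by
    rfl
  have b1 : (k * h : ℂ ≃ᵢ ℂ) ⟨-1/2, -1⟩ = ⟨-3 + 1/2 * S, -1 + 7/2 * S⟩ := by
    simp only [IsometryEquiv.mul_apply, fh, fk]
    apply Complex.ext <;> simp <;> try ring_nf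
  have b2 : (k * h : ℂ ≃ᵢ ℂ) ⟨1, 0⟩ = ⟨-3 + 1 * S, -1 + 1 * S⟩ := by
    simp only [IsometryEquiv.mul_apply, fh, fk]
    apply Complex.ext <;> simp <;> try ring_nf
  have a2 : (1 : ℂ ≃ᵢ ℂ) ⟨1, 0⟩ = ⟨1, 0⟩ := by
    rfl
  refine cert hS (a := 1) (b := k * h) H.one_mem (H.mul_mem hk hh) ⟨-1/2, -1⟩ ⟨1, 0⟩ ?_ ?_ ?_ ?_
  · rw [a1]
    apply intP_R <;> simp only [] <;> linarith
  · rw [b1]
    apply intP_R <;> simp only [] <;> linarith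
  · rw [b2]; left
    refine ⟨?_, ?_, ?_, ?_⟩ <;> simp only [] <;> linarith
  · rw [a2]; apply notP
    right; right; right; right; left; constructor <;> simp only [] <;> linarith

theorem g2_3p (hS : Sys H) {h k g : ℂ ≃ᵢ ℂ} (hh : h ∈ H) (hk : k ∈ H) (fh : ∀ z, h z = I * z + 2)
    (hg : g ∈ H) (fg : ∀ z, g z = -z + ⟨-5, 4⟩)
    (fk : ∀ z, k z = I * (-1) * (z - ⟨-3, 2⟩) + ⟨-3, -1⟩) : False := by
  have a1 : (1 : ℂ ≃ᵢ ℂ) ⟨-1, 0⟩ = ⟨-1, 0⟩ := by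
    rfl
  have b1 : (k * g : ℂ ≃ᵢ ℂ) ⟨-1, 0⟩ = ⟨-1, 0⟩ := by
    simp only [IsometryEquiv.mul_apply, fk, fg]
    apply Complex.ext <;> simp <;> try ring_nf
  have b2 : (k * g : ℂ ≃ᵢ ℂ) ⟨1, 0⟩ = ⟨-1, 2⟩ := by
    simp only [IsometryEquiv.mul_apply, fk, fg]
    apply Complex.ext <;> simp <;> try ring_nf
  have a2 : (1 : ℂ ≃ᵢ ℂ) ⟨1, 0⟩ = ⟨1, 0⟩ := by
    rfl
  refine cert hS (a := 1) (b := k * g) H.one_mem (H.mul_mem hk hg) ⟨-1, 0⟩ ⟨1, 0⟩ ?_ ?_ ?_ ?_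
  · rw [a1]
    apply intP_R <;> simp only [] <;> linarith
  · rw [b1]
    apply intP_R <;> simp only [] <;> linarith
  · rw [b2]; left
    refine ⟨?_, ?_, ?_, ?_⟩ <;> simp only [] <;> linarith
  · rw [a2]; apply notP
    right; right; right; right; left; constructor <;> simp only [] <;> linarith

theorem g2_3m (hS : Sys H) {h k g : ℂ ≃ᵢ ℂ} (hh : h ∈ H) (hk : k ∈ H) (fh : ∀ z, h z = I * z + 2)
    (hg : g ∈ H) (fg : ∀ z, g z = -z + ⟨-5, 4⟩)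
    (fk : ∀ z, k z = (-1) * conj (z - ⟨-3, 2⟩) + ⟨-3, -1⟩) : False := by
  have a1 : (1 : ℂ ≃ᵢ ℂ) ⟨-1, 0⟩ = ⟨-1, 0⟩ := by
    rfl
  have b1 : (k * g : ℂ ≃ᵢ ℂ) ⟨-1, 0⟩ = ⟨-2, 1⟩ := by
    simp only [IsometryEquiv.mul_apply, fk, fg]
    apply Complex.ext <;> simp <;> try ring_nf
  have b2 : (k * g : ℂ ≃ᵢ ℂ) ⟨1, 0⟩ = ⟨0, 1⟩ := by
    simp only [IsometryEquiv.mul_apply, fk, fg]
    apply Complex.ext <;> simp <;> try ring_nf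
  have a2 : (1 : ℂ ≃ᵢ ℂ) ⟨1, 0⟩ = ⟨1, 0⟩ := by
    rfl
  refine cert hS (a := 1) (b := k * g) H.one_mem (H.mul_mem hk hg) ⟨-1, 0⟩ ⟨1, 0⟩ ?_ ?_ ?_ ?_
  · rw [a1]
    apply intP_R <;> simp only [] <;> linarith
  · rw [b1]
    apply intP_R <;> simp only [] <;> linarith
  · rw [b2]; left
    refine ⟨?_, ?_, ?_, ?_⟩ <;> simp only [] <;> linarith
  · rw [a2]; apply notP
    right; right; right; right; left; constructor <;> simp only [] <;> linarith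

theorem g2_4p (hS : Sys H) {h k g : ℂ ≃ᵢ ℂ} (hh : h ∈ H) (hk : k ∈ H) (fh : ∀ z, h z = I * z + 2)
    (hg : g ∈ H) (fg : ∀ z, g z = -z + ⟨-5, 4⟩)
    (fk : ∀ z, k z = (-1) * (z - ⟨-3, -2⟩) + ⟨-3, -1⟩) : False := by
  have a1 : (g : ℂ ≃ᵢ ℂ) ⟨-5/2, 11/2⟩ = ⟨-5/2, -3/2⟩ := by
    simp only [IsometryEquiv.mul_apply, fg]
    apply Complex.ext <;> simp <;> try ring_nf
  have b1 : (k * h : ℂ ≃ᵢ ℂ) ⟨-5/2, 11/2⟩ = ⟨-5/2, -1/2⟩ := by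
    simp only [IsometryEquiv.mul_apply, fh, fk]
    apply Complex.ext <;> simp <;> try ring_nf
  have b2 : (k * h : ℂ ≃ᵢ ℂ) ⟨-1, 5⟩ = ⟨-3, -2⟩ := by
    simp only [IsometryEquiv.mul_apply, fh, fk]
    apply Complex.ext <;> simp <;> try ring_nf
  have a2 : (g : ℂ ≃ᵢ ℂ) ⟨-1, 5⟩ = ⟨-4, -1⟩ := by
    simp only [IsometryEquiv.mul_apply, fg]
    apply Complex.ext <;> simp <;> try ring_nf
  refine cert hS (a := g) (b := k * h) hg (H.mul_mem hk hh) ⟨-5/2, 11/2⟩ ⟨-1, 5⟩ ?_ ?_ ?_ ?_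
  · rw [a1]
    apply intP_R <;> simp only [] <;> linarith
  · rw [b1]
    apply intP_R <;> simp only [] <;> linarith
  · rw [b2]; left
    refine ⟨?_, ?_, ?_, ?_⟩ <;> simp only [] <;> linarith
  · rw [a2]; apply notP
    left; simp only []; linarith

theorem g2_4m (hS : Sys H) {h k g : ℂ ≃ᵢ ℂ} (hh : h ∈ H) (hk : k ∈ H) (fh : ∀ z, h z = I * z + 2)
    (hg : g ∈ H) (fg : ∀ z, g z = -z + ⟨-5, 4⟩)
    (fk : ∀ z, k z = I * (-1) * conj (z - ⟨-3, -2⟩) + ⟨-3, -1⟩) : False := by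
  have a1 : (1 : ℂ ≃ᵢ ℂ) ⟨-1, 0⟩ = ⟨-1, 0⟩ := by
    rfl
  have b1 : (k * k : ℂ ≃ᵢ ℂ) ⟨-1, 0⟩ = ⟨-2, 1⟩ := by
    simp only [IsometryEquiv.mul_apply, fk]
    apply Complex.ext <;> simp <;> try ring_nf
  have b2 : (k * k : ℂ ≃ᵢ ℂ) ⟨1, 0⟩ = ⟨0, 1⟩ := by
    simp only [IsometryEquiv.mul_apply, fk]
    apply Complex.ext <;> simp <;> try ring_nf
  have a2 : (1 : ℂ ≃ᵢ ℂ) ⟨1, 0⟩ = ⟨1, 0⟩ := by
    rfl
  refine cert hS (a := 1) (b := k * k) H.one_mem (H.mul_mem hk hk) ⟨-1, 0⟩ ⟨1, 0⟩ ?_ ?_ ?_ ?_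
  · rw [a1]
    apply intP_R <;> simp only [] <;> linarith
  · rw [b1]
    apply intP_R <;> simp only [] <;> linarith
  · rw [b2]; left
    refine ⟨?_, ?_, ?_, ?_⟩ <;> simp only [] <;> linarith
  · rw [a2]; apply notP
    right; right; right; right; left; constructor <;> simp only [] <;> linarith

theorem g2_5p (hS : Sys H) {h k g : ℂ ≃ᵢ ℂ} (hh : h ∈ H) (hk : k ∈ H) (fh : ∀ z, h z = I * z + 2)
    (hg : g ∈ H) (fg : ∀ z, g z = -z + ⟨-5, 4⟩)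
    (fk : ∀ z, k z = -(I * (-1)) * (z - ⟨0, -2⟩) + ⟨-3, -1⟩) : False := by
  have a1 : (1 : ℂ ≃ᵢ ℂ) ⟨-5/2, 0⟩ = ⟨-5/2, 0⟩ := by
    rfl
  have b1 : (k * h : ℂ ≃ᵢ ℂ) ⟨-5/2, 0⟩ = ⟨-5/2, 1⟩ := by
    simp only [IsometryEquiv.mul_apply, fh, fk]
    apply Complex.ext <;> simp <;> try ring_nf
  have b2 : (k * h : ℂ ≃ᵢ ℂ) ⟨-2, 3⟩ = ⟨-3, -2⟩ := by
    simp only [IsometryEquiv.mul_apply, fh, fk]
    apply Complex.ext <;> simp <;> try ring_nf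
  have a2 : (1 : ℂ ≃ᵢ ℂ) ⟨-2, 3⟩ = ⟨-2, 3⟩ := by
    rfl
  refine cert hS (a := 1) (b := k * h) H.one_mem (H.mul_mem hk hh) ⟨-5/2, 0⟩ ⟨-2, 3⟩ ?_ ?_ ?_ ?_
  · rw [a1]
    apply intP_R <;> simp only [] <;> linarith
  · rw [b1]
    apply intP_R <;> simp only [] <;> linarith
  · rw [b2]; left
    refine ⟨?_, ?_, ?_, ?_⟩ <;> simp only [] <;> linarith
  · rw [a2]; apply notP
    right; right; left; simp only []; linarith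

theorem g2_5m (hS : Sys H) {h k g : ℂ ≃ᵢ ℂ} (hh : h ∈ H) (hk : k ∈ H) (fh : ∀ z, h z = I * z + 2)
    (hg : g ∈ H) (fg : ∀ z, g z = -z + ⟨-5, 4⟩)
    (fk : ∀ z, k z = -(-1) * conj (z - ⟨0, -2⟩) + ⟨-3, -1⟩) : False := by
  have a1 : (1 : ℂ ≃ᵢ ℂ) ⟨-2, 0⟩ = ⟨-2, 0⟩ := by
    rfl
  have b1 : (k * h : ℂ ≃ᵢ ℂ) ⟨-2, 0⟩ = ⟨-1, -1⟩ := by
    simp only [IsometryEquiv.mul_apply, fh, fk]
    apply Complex.ext <;> simp <;> try ring_nf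
  have b2 : (k * h : ℂ ≃ᵢ ℂ) ⟨-4, 0⟩ = ⟨-1, 1⟩ := by
    simp only [IsometryEquiv.mul_apply, fh, fk]
    apply Complex.ext <;> simp <;> try ring_nf
  have a2 : (1 : ℂ ≃ᵢ ℂ) ⟨-4, 0⟩ = ⟨-4, 0⟩ := by
    rfl
  refine cert hS (a := 1) (b := k * h) H.one_mem (H.mul_mem hk hh) ⟨-2, 0⟩ ⟨-4, 0⟩ ?_ ?_ ?_ ?_
  · rw [a1]
    apply intP_R <;> simp only [] <;> linarith
  · rw [b1]
    apply intP_R <;> simp only [] <;> linarith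
  · rw [b2]; left
    refine ⟨?_, ?_, ?_, ?_⟩ <;> simp only [] <;> linarith
  · rw [a2]; apply notP
    left; simp only []; linarith

theorem g3_1p (hS : Sys H) {h k g : ℂ ≃ᵢ ℂ} (hh : h ∈ H) (hk : k ∈ H) (fh : ∀ z, h z = I * z + 2)
    (hg : g ∈ H) (fg : ∀ z, g z = I * z + ⟨-4, 5⟩)
    {S : ℝ} (hS1 : 0.707 < S) (hS2 : S < 0.7072)
    (fk : ∀ z, k z = (-1) * ⟨-S, -S⟩ * (z - ⟨1, 1⟩) + ⟨-3, 2⟩) : False := by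
  have a1 : (1 : ℂ ≃ᵢ ℂ) ⟨-1/2, -1⟩ = ⟨-1/2, -1⟩ := by
    rfl
  have b1 : (k : ℂ ≃ᵢ ℂ) ⟨-1/2, -1⟩ = ⟨-3 + 1/2 * S, 2 - 7/2 * S⟩ := by
    simp only [IsometryEquiv.mul_apply, fk]
    apply Complex.ext <;> simp <;> try ring_nf
  have b2 : (k : ℂ ≃ᵢ ℂ) ⟨1, 0⟩ = ⟨-3 + 1 * S, 2 - 1 * S⟩ := by
    simp only [IsometryEquiv.mul_apply, fk]
    apply Complex.ext <;> simp <;> try ring_nf
  have a2 : (1 : ℂ ≃ᵢ ℂ) ⟨1, 0⟩ = ⟨1, 0⟩ := by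
    rfl
  refine cert hS (a := 1) (b := k) H.one_mem hk ⟨-1/2, -1⟩ ⟨1, 0⟩ ?_ ?_ ?_ ?_
  · rw [a1]
    apply intP_R <;> simp only [] <;> linarith
  · rw [b1]
    apply intP_R <;> simp only [] <;> linarith
  · rw [b2]; left
    refine ⟨?_, ?_, ?_, ?_⟩ <;> simp only [] <;> linarith
  · rw [a2]; apply notP
    right; right; right; right; left; constructor <;> simp only [] <;> linarith

theorem g3_1m (hS : Sys H) {h k g : ℂ ≃ᵢ ℂ} (hh : h ∈ H) (hk : k ∈ H) (fh : ∀ z, h z = I * z + 2)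
    (hg : g ∈ H) (fg : ∀ z, g z = I * z + ⟨-4, 5⟩)
    {S : ℝ} (hS1 : 0.707 < S) (hS2 : S < 0.7072)
    (fk : ∀ z, k z = (-1) * ⟨-S, -S⟩ * conj (z - ⟨1, 1⟩) + ⟨-3, 2⟩) : False := by
  have a1 : (1 : ℂ ≃ᵢ ℂ) ⟨-11/4, 7/4⟩ = ⟨-11/4, 7/4⟩ := by
    rfl
  have b1 : (g * k : ℂ ≃ᵢ ℂ) ⟨-11/4, 7/4⟩ = ⟨-6 + 9/2 * S, 2 - 3 * S⟩ := by
    simp only [IsometryEquiv.mul_apply, fk, fg]
    apply Complex.ext <;> simp <;> try ring_nf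
  have b2 : (g * k : ℂ ≃ᵢ ℂ) ⟨-2, 3⟩ = ⟨-6 + 5 * S, 2 - 1 * S⟩ := by
    simp only [IsometryEquiv.mul_apply, fk, fg]
    apply Complex.ext <;> simp <;> try ring_nf
  have a2 : (1 : ℂ ≃ᵢ ℂ) ⟨-2, 3⟩ = ⟨-2, 3⟩ := by
    rfl
  refine cert hS (a := 1) (b := g * k) H.one_mem (H.mul_mem hg hk) ⟨-11/4, 7/4⟩ ⟨-2, 3⟩ ?_ ?_ ?_ ?_
  · rw [a1]
    apply intP_R <;> simp only [] <;> linarith
  · rw [b1]
    apply intP_R <;> simp only [] <;> linarith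
  · rw [b2]; left
    refine ⟨?_, ?_, ?_, ?_⟩ <;> simp only [] <;> linarith
  · rw [a2]; apply notP
    right; right; left; simp only []; linarith

theorem g3_3p (hS : Sys H) {h k g : ℂ ≃ᵢ ℂ} (hh : h ∈ H) (hk : k ∈ H) (fh : ∀ z, h z = I * z + 2)
    (hg : g ∈ H) (fg : ∀ z, g z = I * z + ⟨-4, 5⟩)
    (fk : ∀ z, k z = I * (-1) * (z - ⟨-3, 2⟩) + ⟨-3, 2⟩) : False := by
  have a1 : (1 : ℂ ≃ᵢ ℂ) ⟨-1/2, -3/2⟩ = ⟨-1/2, -3/2⟩ := by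
    rfl
  have b1 : (k * g : ℂ ≃ᵢ ℂ) ⟨-1/2, -3/2⟩ = ⟨-1/2, 3/2⟩ := by
    simp only [IsometryEquiv.mul_apply, fk, fg]
    apply Complex.ext <;> simp <;> try ring_nf
  have b2 : (k * g : ℂ ≃ᵢ ℂ) ⟨1, -2⟩ = ⟨1, 1⟩ := by
    simp only [IsometryEquiv.mul_apply, fk, fg]
    apply Complex.ext <;> simp <;> try ring_nf
  have a2 : (1 : ℂ ≃ᵢ ℂ) ⟨1, -2⟩ = ⟨1, -2⟩ := by
    rfl
  refine cert hS (a := 1) (b := k * g) H.one_mem (H.mul_mem hk hg) ⟨-1/2, -3/2⟩ ⟨1, -2⟩ ?_ ?_ ?_ ?_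
  · rw [a1]
    apply intP_R <;> simp only [] <;> linarith
  · rw [b1]
    apply intP_R <;> simp only [] <;> linarith
  · rw [b2]; right
    refine ⟨?_, ?_, ?_⟩ <;> simp only [] <;> linarith
  · rw [a2]; apply notP
    right; right; right; right; left; constructor <;> simp only [] <;> linarith

theorem g3_3m (hS : Sys H) {h k g : ℂ ≃ᵢ ℂ} (hh : h ∈ H) (hk : k ∈ H) (fh : ∀ z, h z = I * z + 2)
    (hg : g ∈ H) (fg : ∀ z, g z = I * z + ⟨-4, 5⟩)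
    (fk : ∀ z, k z = (-1) * conj (z - ⟨-3, 2⟩) + ⟨-3, 2⟩) : False := by
  have a1 : (1 : ℂ ≃ᵢ ℂ) ⟨-1/2, -3/2⟩ = ⟨-1/2, -3/2⟩ := by
    rfl
  have b1 : (g * k : ℂ ≃ᵢ ℂ) ⟨-1/2, -3/2⟩ = ⟨-5/2, -1/2⟩ := by
    simp only [IsometryEquiv.mul_apply, fk, fg]
    apply Complex.ext <;> simp <;> try ring_nf
  have b2 : (g * k : ℂ ≃ᵢ ℂ) ⟨1, -1⟩ = ⟨-3, -2⟩ := by
    simp only [IsometryEquiv.mul_apply, fk, fg]
    apply Complex.ext <;> simp <;> try ring_nf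
  have a2 : (1 : ℂ ≃ᵢ ℂ) ⟨1, -1⟩ = ⟨1, -1⟩ := by
    rfl
  refine cert hS (a := 1) (b := g * k) H.one_mem (H.mul_mem hg hk) ⟨-1/2, -3/2⟩ ⟨1, -1⟩ ?_ ?_ ?_ ?_
  · rw [a1]
    apply intP_R <;> simp only [] <;> linarith
  · rw [b1]
    apply intP_R <;> simp only [] <;> linarith
  · rw [b2]; left
    refine ⟨?_, ?_, ?_, ?_⟩ <;> simp only [] <;> linarith
  · rw [a2]; apply notP
    right; right; right; right; left; constructor <;> simp only [] <;> linarith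

theorem g3_4p (hS : Sys H) {h k g : ℂ ≃ᵢ ℂ} (hh : h ∈ H) (hk : k ∈ H) (fh : ∀ z, h z = I * z + 2)
    (hg : g ∈ H) (fg : ∀ z, g z = I * z + ⟨-4, 5⟩)
    (fk : ∀ z, k z = (-1) * (z - ⟨-3, -2⟩) + ⟨-3, 2⟩) : False := by
  have a1 : (1 : ℂ ≃ᵢ ℂ) ⟨-1/2, 3/2⟩ = ⟨-1/2, 3/2⟩ := by
    rfl
  have b1 : (g * k : ℂ ≃ᵢ ℂ) ⟨-1/2, 3/2⟩ = ⟨-5/2, -1/2⟩ := by
    simp only [IsometryEquiv.mul_apply, fk, fg]
    apply Complex.ext <;> simp <;> try ring_nf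
  have b2 : (g * k : ℂ ≃ᵢ ℂ) ⟨1, 2⟩ = ⟨-2, -2⟩ := by
    simp only [IsometryEquiv.mul_apply, fk, fg]
    apply Complex.ext <;> simp <;> try ring_nf
  have a2 : (1 : ℂ ≃ᵢ ℂ) ⟨1, 2⟩ = ⟨1, 2⟩ := by
    rfl
  refine cert hS (a := 1) (b := g * k) H.one_mem (H.mul_mem hg hk) ⟨-1/2, 3/2⟩ ⟨1, 2⟩ ?_ ?_ ?_ ?_
  · rw [a1]
    apply intP_R <;> simp only [] <;> linarith
  · rw [b1]
    apply intP_R <;> simp only [] <;> linarith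
  · rw [b2]; left
    refine ⟨?_, ?_, ?_, ?_⟩ <;> simp only [] <;> linarith
  · rw [a2]; apply notP
    right; right; right; right; right; constructor <;> simp only [] <;> linarith

theorem g3_4m (hS : Sys H) {h k g : ℂ ≃ᵢ ℂ} (hh : h ∈ H) (hk : k ∈ H) (fh : ∀ z, h z = I * z + 2)
    (hg : g ∈ H) (fg : ∀ z, g z = I * z + ⟨-4, 5⟩)
    (fk : ∀ z, k z = I * (-1) * conj (z - ⟨-3, -2⟩) + ⟨-3, 2⟩) : False := by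
  have a1 : (1 : ℂ ≃ᵢ ℂ) ⟨-5/2, 3/2⟩ = ⟨-5/2, 3/2⟩ := by
    rfl
  have b1 : (k * h : ℂ ≃ᵢ ℂ) ⟨-5/2, 3/2⟩ = ⟨-5/2, -3/2⟩ := by
    simp only [IsometryEquiv.mul_apply, fh, fk]
    apply Complex.ext <;> simp <;> try ring_nf
  have b2 : (k * h : ℂ ≃ᵢ ℂ) ⟨-2, 3⟩ = ⟨-3, 0⟩ := by
    simp only [IsometryEquiv.mul_apply, fh, fk]
    apply Complex.ext <;> simp <;> try ring_nf
  have a2 : (1 : ℂ ≃ᵢ ℂ) ⟨-2, 3⟩ = ⟨-2, 3⟩ := by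
    rfl
  refine cert hS (a := 1) (b := k * h) H.one_mem (H.mul_mem hk hh) ⟨-5/2, 3/2⟩ ⟨-2, 3⟩ ?_ ?_ ?_ ?_
  · rw [a1]
    apply intP_R <;> simp only [] <;> linarith
  · rw [b1]
    apply intP_R <;> simp only [] <;> linarith
  · rw [b2]; left
    refine ⟨?_, ?_, ?_, ?_⟩ <;> simp only [] <;> linarith
  · rw [a2]; apply notP
    right; right; left; simp only []; linarith

theorem g3_5p (hS : Sys H) {h k g : ℂ ≃ᵢ ℂ} (hh : h ∈ H) (hk : k ∈ H) (fh : ∀ z, h z = I * z + 2)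
    (hg : g ∈ H) (fg : ∀ z, g z = I * z + ⟨-4, 5⟩)
    (fk : ∀ z, k z = -(I * (-1)) * (z - ⟨0, -2⟩) + ⟨-3, 2⟩) : False := by
  have a1 : (k : ℂ ≃ᵢ ℂ) ⟨-7/2, -5/2⟩ = ⟨-5/2, -3/2⟩ := by
    simp only [IsometryEquiv.mul_apply, fk]
    apply Complex.ext <;> simp <;> try ring_nf
  have b1 : (g : ℂ ≃ᵢ ℂ) ⟨-7/2, -5/2⟩ = ⟨-3/2, 3/2⟩ := by
    simp only [IsometryEquiv.mul_apply, fg]
    apply Complex.ext <;> simp <;> try ring_nf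
  have b2 : (g : ℂ ≃ᵢ ℂ) ⟨-3, -1⟩ = ⟨-3, 2⟩ := by
    simp only [IsometryEquiv.mul_apply, fg]
    apply Complex.ext <;> simp <;> try ring_nf
  have a2 : (k : ℂ ≃ᵢ ℂ) ⟨-3, -1⟩ = ⟨-4, -1⟩ := by
    simp only [IsometryEquiv.mul_apply, fk]
    apply Complex.ext <;> simp <;> try ring_nf
  refine cert hS (a := k) (b := g) hk hg ⟨-7/2, -5/2⟩ ⟨-3, -1⟩ ?_ ?_ ?_ ?_
  · rw [a1]
    apply intP_R <;> simp only [] <;> linarith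
  · rw [b1]
    apply intP_R <;> simp only [] <;> linarith
  · rw [b2]; left
    refine ⟨?_, ?_, ?_, ?_⟩ <;> simp only [] <;> linarith
  · rw [a2]; apply notP
    left; simp only []; linarith

theorem g3_5m (hS : Sys H) {h k g : ℂ ≃ᵢ ℂ} (hh : h ∈ H) (hk : k ∈ H) (fh : ∀ z, h z = I * z + 2)
    (hg : g ∈ H) (fg : ∀ z, g z = I * z + ⟨-4, 5⟩)
    (fk : ∀ z, k z = -(-1) * conj (z - ⟨0, -2⟩) + ⟨-3, 2⟩) : False := by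
  have a1 : (1 : ℂ ≃ᵢ ℂ) ⟨1/2, 1⟩ = ⟨1/2, 1⟩ := by
    rfl
  have b1 : (k : ℂ ≃ᵢ ℂ) ⟨1/2, 1⟩ = ⟨-5/2, -1⟩ := by
    simp only [IsometryEquiv.mul_apply, fk]
    apply Complex.ext <;> simp <;> try ring_nf
  have b2 : (k : ℂ ≃ᵢ ℂ) ⟨1, 0⟩ = ⟨-2, 0⟩ := by
    simp only [IsometryEquiv.mul_apply, fk]
    apply Complex.ext <;> simp <;> try ring_nf
  have a2 : (1 : ℂ ≃ᵢ ℂ) ⟨1, 0⟩ = ⟨1, 0⟩ := by
    rfl
  refine cert hS (a := 1) (b := k) H.one_mem hk ⟨1/2, 1⟩ ⟨1, 0⟩ ?_ ?_ ?_ ?_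
  · rw [a1]
    apply intP_T <;> simp only [] <;> linarith
  · rw [b1]
    apply intP_R <;> simp only [] <;> linarith
  · rw [b2]; left
    refine ⟨?_, ?_, ?_, ?_⟩ <;> simp only [] <;> linarith
  · rw [a2]; apply notP
    right; right; right; right; left; constructor <;> simp only [] <;> linarith

end Pool.Agent.R175.Hexa
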