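import Mathlib
import Pool.Agent.R175.Hexa.Leaves

/-!
# No group of isometries makes `P` tile transitively
-/

set_option autoImplicit false

namespace Pool.Agent.R175.Hexa

open Set Complex ComplexConjugate Pool.Agent.R175.Disk MeasureTheory Topology

variable {H : Subgroup (ℂ ≃ᵢ ℂ)}

theorem wA {e : ℂ} : e ∈ Wedge I (I * I) ↔ 0 ≤ e.im ∧ e.re ≤ 0 := by
  rw [mem_wedge]
  simp

theorem wB {e : ℂ} : e ∈ Wedge (-1) (I * (-1)) ↔ e.re ≤ 0 ∧ e.im ≤ 0 := by
  rw [mem_wedge]
  simp

theorem no_sys (hS : Sys H) : False := by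
  obtain ⟨h, hh, fh⟩ := root hS
  have fi : ∀ z, (h⁻¹ : ℂ ≃ᵢ ℂ) z = -I * z + 2 * I := by
    intro z
    apply h.injective
    rw [IsometryEquiv.apply_inv_self, fh]
    linear_combination (z - 2) * I_mul_I
  have hi : (h⁻¹ : ℂ ≃ᵢ ℂ) ∈ H := H.inv_mem hh
  have hK1 : ∀ k ∈ ({1, h⁻¹} : Set (ℂ ≃ᵢ ℂ)), k ∈ H := by
    rintro k (rfl | rfl)
    · exact H.one_mem
    · exact hi
  have one_img : ∀ z, z ∈ (1 : ℂ ≃ᵢ ℂ) '' P ↔ z ∈ P := by
    intro z
    have : (1 : ℂ ≃ᵢ ℂ) '' P = P := by ext z; simp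
    rw [this]
  -- first gap
  have hcov1 : ∀ e : ℂ, ‖e‖ < 1 → e ∉ Wedge I (I * I) →
      ∃ k ∈ ({1, h⁻¹} : Set (ℂ ≃ᵢ ℂ)), (⟨-2, 2⟩ : ℂ) + e ∈ k '' P := by
    intro e he hW
    rw [wA] at hW
    have h1 := abs_le.1 ((Complex.abs_re_le_norm e).trans he.le)
    have h2 := abs_le.1 ((Complex.abs_im_le_norm e).trans he.le)
    by_cases hc : e.im < 0
    · refine ⟨1, Or.inl rfl, (one_img _).2 ?_⟩
      left
      refine ⟨?_, ?_, ?_, ?_⟩ <;> simp <;> linarith
    · have hc2 : 0 < e.re := by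
        by_contra h3
        exact hW ⟨not_lt.1 hc, not_lt.1 h3⟩
      push Not at hc
      refine ⟨h⁻¹, Or.inr rfl, ⟨-e.im, -2 + e.re⟩, ?_, ?_⟩
      · left
        refine ⟨?_, ?_, ?_, ?_⟩ <;> simp <;> linarith
      · rw [fi]
        apply Complex.ext <;> simp <;> ring
  have hout1 : ∀ ε > 0, ∃ z, dist z (⟨-2, 2⟩ : ℂ) < ε ∧ ∀ k ∈ ({1, h⁻¹} : Set (ℂ ≃ᵢ ℂ)), z ∉ k '' P := by
    intro ε hε
    refine ⟨⟨-2 - ε / 4, 2 + ε / 4⟩, ?_, ?_⟩
    · rw [dist_eq_norm]
      refine (Complex.norm_le_abs_re_add_abs_im _).trans_lt ?_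
      simp only [Complex.sub_re, Complex.sub_im]
      have e1 : -2 - ε / 4 - -2 = -(ε / 4) := by ring
      have e2 : 2 + ε / 4 - 2 = ε / 4 := by ring
      rw [e1, e2, abs_neg, abs_of_pos (by positivity)]
      linarith
    · rintro k (rfl | rfl)
      · rw [one_img]
        apply notP
        right; right; left
        simp only []; linarith
      · rintro ⟨y, hy, hyz⟩
        revert hy
        have : y = ⟨-(ε / 4), -2 - ε / 4⟩ := by
          have h1 := congrArg h hyz
          rw [IsometryEquiv.apply_inv_self, fh] at h1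
          rw [h1]
          apply Complex.ext <;> simp <;> ring
        rw [this]
        apply notP
        right; left
        simp only []; linarith
  obtain ⟨k, hk, S, hS0, hS2, hp⟩ := gapQ hS (v := ⟨-2, 2⟩) (w := I) (by simp) hK1 one_pos hcov1 hout1
  have b1 : 0.707 < S := by nlinarith
  have b2 : S < 0.7072 := by nlinarith
  rcases hp with hp | hp | hp | hp | hp | hp | hp | hp
  · exact g1_1p hS hh hk fh b1 b2 hp
  · exact g1_1m hS hh hk fh b1 b2 hp
  · -- second gap
    have fk : ∀ z, k z = -z + ⟨-5, 4⟩ := by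
      intro z
      rw [hp]
      apply Complex.ext <;> simp <;> ring
    have hkk : ∀ z, k (k z) = z := by
      intro z
      rw [fk, fk]
      apply Complex.ext <;> simp
    have hK2 : ∀ l ∈ ({1, k * h⁻¹} : Set (ℂ ≃ᵢ ℂ)), l ∈ H := by
      rintro l (rfl | rfl)
      · exact H.one_mem
      · exact H.mul_mem hk hi
    have hcov2 : ∀ e : ℂ, ‖e‖ < 1 → e ∉ Wedge (-1) (I * (-1)) →
        ∃ l ∈ ({1, k * h⁻¹} : Set (ℂ ≃ᵢ ℂ)), (⟨-3, -1⟩ : ℂ) + e ∈ l '' P := by
      intro e he hW
      rw [wB] at hW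
      have h1 := abs_le.1 ((Complex.abs_re_le_norm e).trans he.le)
      have h2 := abs_le.1 ((Complex.abs_im_le_norm e).trans he.le)
      by_cases hc : 0 ≤ e.re
      · refine ⟨1, Or.inl rfl, (one_img _).2 ?_⟩
        left
        refine ⟨?_, ?_, ?_, ?_⟩ <;> simp <;> linarith
      · push Not at hc
        have hc2 : 0 < e.im := by
          by_contra h3
          exact hW ⟨hc.le, not_lt.1 h3⟩
        refine ⟨k * h⁻¹, Or.inr rfl, ⟨-3 + e.im, -2 - e.re⟩, ?_, ?_⟩
        · left
          refine ⟨?_, ?_, ?_, ?_⟩ <;> simp <;> linarith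
        · rw [IsometryEquiv.mul_apply, fi, fk]
          apply Complex.ext <;> simp <;> ring
    have hout2 : ∀ ε > 0, ∃ z, dist z (⟨-3, -1⟩ : ℂ) < ε ∧
        ∀ l ∈ ({1, k * h⁻¹} : Set (ℂ ≃ᵢ ℂ)), z ∉ l '' P := by
      intro ε hε
      refine ⟨⟨-3 - ε / 4, -1 - ε / 4⟩, ?_, ?_⟩
      · rw [dist_eq_norm]
        refine (Complex.norm_le_abs_re_add_abs_im _).trans_lt ?_
        simp only [Complex.sub_re, Complex.sub_im]
        have e1 : -3 - ε / 4 - -3 = -(ε / 4) := by ring
        have e2 : -1 - ε / 4 - -1 = -(ε / 4) := by ring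
        rw [e1, e2, abs_neg, abs_of_pos (by positivity)]
        linarith
      · rintro l (rfl | rfl)
        · rw [one_img]
          apply notP
          left
          simp only []; linarith
        · rintro ⟨y, hy, hyz⟩
          revert hy
          have : y = ⟨-3 - ε / 4, -2 + ε / 4⟩ := by
            have h0 := congrArg k hyz
            rw [IsometryEquiv.mul_apply, hkk] at h0
            have h1 := congrArg h h0
            rw [IsometryEquiv.apply_inv_self, fh, fk] at h1
            rw [h1]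
            apply Complex.ext <;> simp <;> ring
          rw [this]
          apply notP
          left
          simp only []; linarith
    obtain ⟨l, hl, S, hS0, hS2, hp⟩ := gapQ hS (v := ⟨-3, -1⟩) (w := -1) (by simp) hK2 one_pos hcov2 hout2
    have b1 : 0.707 < S := by nlinarith
    have b2 : S < 0.7072 := by nlinarith
    rcases hp with hp | hp | hp | hp | hp | hp | hp | hp
    · exact g2_1p hS hh hl fh hk fk b1 b2 hp
    · exact g2_1m hS hh hl fh hk fk b1 b2 hp
    · exact g2_3p hS hh hl fh hk fk hp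
    · exact g2_3m hS hh hl fh hk fk hp
    · exact g2_4p hS hh hl fh hk fk hp
    · exact g2_4m hS hh hl fh hk fk hp
    · exact g2_5p hS hh hl fh hk fk hp
    · exact g2_5m hS hh hl fh hk fk hp
  · exact g1_3m hS hh hk fh hp
  · -- third gap
    have fk : ∀ z, k z = I * z + ⟨-4, 5⟩ := by
      intro z
      rw [hp]
      apply Complex.ext <;> simp <;> ring
    have hK2 : ∀ l ∈ ({1, k} : Set (ℂ ≃ᵢ ℂ)), l ∈ H := by
      rintro l (rfl | rfl)
      · exact H.one_mem
      · exact hk
    have hcov2 : ∀ e : ℂ, ‖e‖ < 1 → e ∉ Wedge (-1) (I * (-1)) →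
        ∃ l ∈ ({1, k} : Set (ℂ ≃ᵢ ℂ)), (⟨-3, 2⟩ : ℂ) + e ∈ l '' P := by
      intro e he hW
      rw [wB] at hW
      have h1 := abs_le.1 ((Complex.abs_re_le_norm e).trans he.le)
      have h2 := abs_le.1 ((Complex.abs_im_le_norm e).trans he.le)
      by_cases hc : 0 < e.im
      · refine ⟨k, Or.inr rfl, ⟨-3 + e.im, -1 - e.re⟩, ?_, ?_⟩
        · left
          refine ⟨?_, ?_, ?_, ?_⟩ <;> simp <;> linarith
        · rw [fk]
          apply Complex.ext <;> simp <;> ring
      · push Not at hc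
        have hc2 : 0 < e.re := by
          by_contra h3
          exact hW ⟨not_lt.1 h3, hc⟩
        refine ⟨1, Or.inl rfl, (one_img _).2 ?_⟩
        left
        refine ⟨?_, ?_, ?_, ?_⟩ <;> simp <;> linarith
    have hout2 : ∀ ε > 0, ∃ z, dist z (⟨-3, 2⟩ : ℂ) < ε ∧
        ∀ l ∈ ({1, k} : Set (ℂ ≃ᵢ ℂ)), z ∉ l '' P := by
      intro ε hε
      refine ⟨⟨-3 - ε / 4, 2 - ε / 4⟩, ?_, ?_⟩
      · rw [dist_eq_norm]
        refine (Complex.norm_le_abs_re_add_abs_im _).trans_lt ?_
        simp only [Complex.sub_re, Complex.sub_im]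
        have e1 : -3 - ε / 4 - -3 = -(ε / 4) := by ring
        have e2 : 2 - ε / 4 - 2 = -(ε / 4) := by ring
        rw [e1, e2, abs_neg, abs_of_pos (by positivity)]
        linarith
      · rintro l (rfl | rfl)
        · rw [one_img]
          apply notP
          left
          simp only []; linarith
        · rintro ⟨y, hy, hyz⟩
          revert hy
          have : y = ⟨-3 - ε / 4, -1 + ε / 4⟩ := by
            rw [fk] at hyz
            have h1 := congrArg Complex.re hyz
            have h2 := congrArg Complex.im hyz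
            simp at h1 h2
            apply Complex.ext <;> simp only [] <;> linarith
          rw [this]
          apply notP
          left
          simp only []; linarith
    obtain ⟨l, hl, S, hS0, hS2, hp⟩ := gapQ hS (v := ⟨-3, 2⟩) (w := -1) (by simp) hK2 one_pos hcov2 hout2
    have b1 : 0.707 < S := by nlinarith
    have b2 : S < 0.7072 := by nlinarith
    rcases hp with hp | hp | hp | hp | hp | hp | hp | hp
    · exact g3_1p hS hh hl fh hk fk b1 b2 hp
    · exact g3_1m hS hh hl fh hk fk b1 b2 hp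
    · exact g3_3p hS hh hl fh hk fk hp
    · exact g3_3m hS hh hl fh hk fk hp
    · exact g3_4p hS hh hl fh hk fk hp
    · exact g3_4m hS hh hl fh hk fk hp
    · exact g3_5p hS hh hl fh hk fk hp
    · exact g3_5m hS hh hl fh hk fk hp
  · exact g1_4m hS hh hk fh hp
  · exact g1_5p hS hh hk fh hp
  · exact g1_5m hS hh hk fh hp

end Pool.Agent.R175.Hexa
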