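import Mathlib
import Pool.Agent.R175.GridTile
import Pool.Agent.R175.Hexa.Hexagon

/-!
# The plane is tiled by copies of `P`
-/

set_option autoImplicit false

namespace Pool.Agent.R175.Hexa

open Set Complex ComplexConjugate Pool.Agent.R175.Disk

/-- The four tiles of the cluster. -/
def TP (k : Fin 4) (x y : ℝ) : Prop :=
  match k with
  | 0 => (-3 ≤ x ∧ x ≤ 0 ∧ -2 ≤ y ∧ y ≤ 2) ∨ (0 ≤ x ∧ x ≤ y ∧ y ≤ 2 - x)
  | 1 => (0 ≤ x ∧ x ≤ 4 ∧ -3 ≤ y ∧ y ≤ 0) ∨ (0 ≤ y ∧ y ≤ 2 - x ∧ y ≤ x)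
  | 2 => (2 ≤ x ∧ x ≤ 5 ∧ 0 ≤ y ∧ y ≤ 4) ∨ (x ≤ 2 ∧ y ≤ x ∧ 2 - y ≤ x)
  | 3 => (-2 ≤ x ∧ x ≤ 2 ∧ 2 ≤ y ∧ y ≤ 5) ∨ (y ≤ 2 ∧ 2 - y ≤ x ∧ x ≤ y)

/-- The translated tiles. -/
def Tl (k : Fin 4) (a b : ℤ) : Set ℂ := {z | TP k (z.re - a) (z.im - b)}

theorem rt_image (u c : ℂ) (hu : ‖u‖ = 1) (A : Set ℂ) : GridTile.rt u c hu '' A = {z | conj u * (z - c) ∈ A} := by
  have huu : conj u * u = 1 := by
    rw [mul_comm, Complex.mul_conj, Complex.normSq_eq_norm_sq, hu]; norm_num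
  ext z
  constructor
  · rintro ⟨y, hy, rfl⟩
    change conj u * (GridTile.rt u c hu y - c) ∈ A
    rw [GridTile.rt_apply, add_sub_cancel_right, ← mul_assoc, huu, one_mul]
    exact hy
  · intro hz
    refine ⟨_, hz, ?_⟩
    rw [GridTile.rt_apply, ← mul_assoc, mul_comm u, huu, one_mul, sub_add_cancel]

theorem Tl_iso (k : Fin 4) (a b : ℤ) : ∃ g : ℂ ≃ᵢ ℂ, Tl k a b = g '' P := by
  fin_cases k
  · refine ⟨GridTile.rt 1 ⟨a, b⟩ (by simp), ?_⟩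
    rw [rt_image]
    ext z
    change ((-3 ≤ z.re - a ∧ z.re - a ≤ 0 ∧ -2 ≤ z.im - b ∧ z.im - b ≤ 2) ∨
      (0 ≤ z.re - a ∧ z.re - a ≤ z.im - b ∧ z.im - b ≤ 2 - (z.re - a))) ↔
      ((-3 ≤ (conj 1 * (z - ⟨a, b⟩)).re ∧ (conj 1 * (z - ⟨a, b⟩)).re ≤ 0 ∧
        -2 ≤ (conj 1 * (z - ⟨a, b⟩)).im ∧ (conj 1 * (z - ⟨a, b⟩)).im ≤ 2) ∨
      (0 ≤ (conj 1 * (z - ⟨a, b⟩)).re ∧ (conj 1 * (z - ⟨a, b⟩)).re ≤ (conj 1 * (z - ⟨a, b⟩)).im ∧
        (conj 1 * (z - ⟨a, b⟩)).im ≤ 2 - (conj 1 * (z - ⟨a, b⟩)).re))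
    have e1 : (conj 1 * (z - ⟨a, b⟩)).re = z.re - a := by simp
    have e2 : (conj 1 * (z - ⟨a, b⟩)).im = z.im - b := by simp
    rw [e1, e2]
  · refine ⟨GridTile.rt I ⟨a + 2, b⟩ (by simp), ?_⟩
    rw [rt_image]
    ext z
    change ((0 ≤ z.re - a ∧ z.re - a ≤ 4 ∧ -3 ≤ z.im - b ∧ z.im - b ≤ 0) ∨
      (0 ≤ z.im - b ∧ z.im - b ≤ 2 - (z.re - a) ∧ z.im - b ≤ z.re - a)) ↔
      ((-3 ≤ (conj I * (z - ⟨a + 2, b⟩)).re ∧ (conj I * (z - ⟨a + 2, b⟩)).re ≤ 0 ∧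
        -2 ≤ (conj I * (z - ⟨a + 2, b⟩)).im ∧ (conj I * (z - ⟨a + 2, b⟩)).im ≤ 2) ∨
      (0 ≤ (conj I * (z - ⟨a + 2, b⟩)).re ∧ (conj I * (z - ⟨a + 2, b⟩)).re ≤ (conj I * (z - ⟨a + 2, b⟩)).im ∧
        (conj I * (z - ⟨a + 2, b⟩)).im ≤ 2 - (conj I * (z - ⟨a + 2, b⟩)).re))
    have e1 : (conj I * (z - ⟨a + 2, b⟩)).re = z.im - b := by simp
    have e2 : (conj I * (z - ⟨a + 2, b⟩)).im = 2 - (z.re - a) := by simp; ring
    rw [e1, e2]
    constructor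
    · rintro (⟨h1, h2, h3, h4⟩ | ⟨h1, h2, h3⟩)
      · left; refine ⟨?_, ?_, ?_, ?_⟩ <;> linarith
      · right; refine ⟨?_, ?_, ?_⟩ <;> linarith
    · rintro (⟨h1, h2, h3, h4⟩ | ⟨h1, h2, h3⟩)
      · left; refine ⟨?_, ?_, ?_, ?_⟩ <;> linarith
      · right; refine ⟨?_, ?_, ?_⟩ <;> linarith
  · refine ⟨GridTile.rt (-1) ⟨a + 2, b + 2⟩ (by simp), ?_⟩
    rw [rt_image]
    ext z
    change ((2 ≤ z.re - a ∧ z.re - a ≤ 5 ∧ 0 ≤ z.im - b ∧ z.im - b ≤ 4) ∨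
      (z.re - a ≤ 2 ∧ z.im - b ≤ z.re - a ∧ 2 - (z.im - b) ≤ z.re - a)) ↔
      ((-3 ≤ (conj (-1) * (z - ⟨a + 2, b + 2⟩)).re ∧ (conj (-1) * (z - ⟨a + 2, b + 2⟩)).re ≤ 0 ∧
        -2 ≤ (conj (-1) * (z - ⟨a + 2, b + 2⟩)).im ∧ (conj (-1) * (z - ⟨a + 2, b + 2⟩)).im ≤ 2) ∨
      (0 ≤ (conj (-1) * (z - ⟨a + 2, b + 2⟩)).re ∧
        (conj (-1) * (z - ⟨a + 2, b + 2⟩)).re ≤ (conj (-1) * (z - ⟨a + 2, b + 2⟩)).im ∧
        (conj (-1) * (z - ⟨a + 2, b + 2⟩)).im ≤ 2 - (conj (-1) * (z - ⟨a + 2, b + 2⟩)).re))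
    have e1 : (conj (-1) * (z - ⟨a + 2, b + 2⟩)).re = 2 - (z.re - a) := by simp; ring
    have e2 : (conj (-1) * (z - ⟨a + 2, b + 2⟩)).im = 2 - (z.im - b) := by simp; ring
    rw [e1, e2]
    constructor
    · rintro (⟨h1, h2, h3, h4⟩ | ⟨h1, h2, h3⟩)
      · left; refine ⟨?_, ?_, ?_, ?_⟩ <;> linarith
      · right; refine ⟨?_, ?_, ?_⟩ <;> linarith
    · rintro (⟨h1, h2, h3, h4⟩ | ⟨h1, h2, h3⟩)
      · left; refine ⟨?_, ?_, ?_, ?_⟩ <;> linarith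
      · right; refine ⟨?_, ?_, ?_⟩ <;> linarith
  · refine ⟨GridTile.rt (-I) ⟨a, b + 2⟩ (by simp), ?_⟩
    rw [rt_image]
    ext z
    change ((-2 ≤ z.re - a ∧ z.re - a ≤ 2 ∧ 2 ≤ z.im - b ∧ z.im - b ≤ 5) ∨
      (z.im - b ≤ 2 ∧ 2 - (z.im - b) ≤ z.re - a ∧ z.re - a ≤ z.im - b)) ↔
      ((-3 ≤ (conj (-I) * (z - ⟨a, b + 2⟩)).re ∧ (conj (-I) * (z - ⟨a, b + 2⟩)).re ≤ 0 ∧
        -2 ≤ (conj (-I) * (z - ⟨a, b + 2⟩)).im ∧ (conj (-I) * (z - ⟨a, b + 2⟩)).im ≤ 2) ∨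
      (0 ≤ (conj (-I) * (z - ⟨a, b + 2⟩)).re ∧
        (conj (-I) * (z - ⟨a, b + 2⟩)).re ≤ (conj (-I) * (z - ⟨a, b + 2⟩)).im ∧
        (conj (-I) * (z - ⟨a, b + 2⟩)).im ≤ 2 - (conj (-I) * (z - ⟨a, b + 2⟩)).re))
    have e1 : (conj (-I) * (z - ⟨a, b + 2⟩)).re = 2 - (z.im - b) := by simp; ring
    have e2 : (conj (-I) * (z - ⟨a, b + 2⟩)).im = z.re - a := by simp
    rw [e1, e2]
    constructor
    · rintro (⟨h1, h2, h3, h4⟩ | ⟨h1, h2, h3⟩)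
      · left; refine ⟨?_, ?_, ?_, ?_⟩ <;> linarith
      · right; refine ⟨?_, ?_, ?_⟩ <;> linarith
    · rintro (⟨h1, h2, h3, h4⟩ | ⟨h1, h2, h3⟩)
      · left; refine ⟨?_, ?_, ?_, ?_⟩ <;> linarith
      · right; refine ⟨?_, ?_, ?_⟩ <;> linarith

/-- The 52 unit cells of the cluster. -/
def InC (c d : ℤ) : Prop :=
  (-3 ≤ c ∧ c ≤ -1 ∧ -2 ≤ d ∧ d ≤ 1) ∨ (0 ≤ c ∧ c ≤ 3 ∧ -3 ≤ d ∧ d ≤ -1) ∨ (2 ≤ c ∧ c ≤ 4 ∧ 0 ≤ d ∧ d ≤ 3) ∨
    (-2 ≤ c ∧ c ≤ 1 ∧ 2 ≤ d ∧ d ≤ 4) ∨ (0 ≤ c ∧ c ≤ 1 ∧ 0 ≤ d ∧ d ≤ 1)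

theorem InC_inj {c d c' d' : ℤ} (h : InC c d) (h' : InC c' d')
    (hk : (52 : ℤ) ∣ (c + 22 * d) - (c' + 22 * d')) : c = c' ∧ d = d' := by
  obtain ⟨k, hk⟩ := hk
  obtain ⟨e, he⟩ : ∃ e, e = d - d' := ⟨_, rfl⟩
  have hd : d = d' + e := by omega
  subst hd
  clear he
  rcases h with h | h | h | h | h <;> rcases h' with h' | h' | h' | h' | h' <;>
    (have h1 : -7 ≤ e := by omega
     have h2 : e ≤ 7 := by omega
     interval_cases e <;> omega)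

theorem InC_ex (M N : ℤ) : ∃ c d : ℤ, InC c d ∧ (52 : ℤ) ∣ (M - c) + 22 * (N - d) := by
  have key : ∀ r : ℤ, 0 ≤ r → r < 52 → ∃ c d : ℤ, InC c d ∧ (r - (c + 22 * d)) % 52 = 0 := by
    intro r h0 h1
    unfold InC
    interval_cases r
    · exact ⟨0, 0, by norm_num, by norm_num⟩
    · exact ⟨1, 0, by norm_num, by norm_num⟩
    · exact ⟨2, 0, by norm_num, by norm_num⟩
    · exact ⟨3, 0, by norm_num, by norm_num⟩
    · exact ⟨4, 0, by norm_num, by norm_num⟩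
    · exact ⟨-3, -2, by norm_num, by norm_num⟩
    · exact ⟨-2, -2, by norm_num, by norm_num⟩
    · exact ⟨-1, -2, by norm_num, by norm_num⟩
    · exact ⟨0, -2, by norm_num, by norm_num⟩
    · exact ⟨1, -2, by norm_num, by norm_num⟩
    · exact ⟨2, -2, by norm_num, by norm_num⟩
    · exact ⟨3, -2, by norm_num, by norm_num⟩
    · exact ⟨-2, 3, by norm_num, by norm_num⟩
    · exact ⟨-1, 3, by norm_num, by norm_num⟩
    · exact ⟨0, 3, by norm_num, by norm_num⟩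
    · exact ⟨1, 3, by norm_num, by norm_num⟩
    · exact ⟨2, 3, by norm_num, by norm_num⟩
    · exact ⟨3, 3, by norm_num, by norm_num⟩
    · exact ⟨4, 3, by norm_num, by norm_num⟩
    · exact ⟨-3, 1, by norm_num, by norm_num⟩
    · exact ⟨-2, 1, by norm_num, by norm_num⟩
    · exact ⟨-1, 1, by norm_num, by norm_num⟩
    · exact ⟨0, 1, by norm_num, by norm_num⟩
    · exact ⟨1, 1, by norm_num, by norm_num⟩
    · exact ⟨2, 1, by norm_num, by norm_num⟩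
    · exact ⟨3, 1, by norm_num, by norm_num⟩
    · exact ⟨4, 1, by norm_num, by norm_num⟩
    · exact ⟨-3, -1, by norm_num, by norm_num⟩
    · exact ⟨-2, -1, by norm_num, by norm_num⟩
    · exact ⟨-1, -1, by norm_num, by norm_num⟩
    · exact ⟨0, -1, by norm_num, by norm_num⟩
    · exact ⟨1, -1, by norm_num, by norm_num⟩
    · exact ⟨2, -1, by norm_num, by norm_num⟩
    · exact ⟨3, -1, by norm_num, by norm_num⟩
    · exact ⟨-2, 4, by norm_num, by norm_num⟩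
    · exact ⟨-1, 4, by norm_num, by norm_num⟩
    · exact ⟨0, 4, by norm_num, by norm_num⟩
    · exact ⟨1, 4, by norm_num, by norm_num⟩
    · exact ⟨0, -3, by norm_num, by norm_num⟩
    · exact ⟨1, -3, by norm_num, by norm_num⟩
    · exact ⟨2, -3, by norm_num, by norm_num⟩
    · exact ⟨3, -3, by norm_num, by norm_num⟩
    · exact ⟨-2, 2, by norm_num, by norm_num⟩
    · exact ⟨-1, 2, by norm_num, by norm_num⟩
    · exact ⟨0, 2, by norm_num, by norm_num⟩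
    · exact ⟨1, 2, by norm_num, by norm_num⟩
    · exact ⟨2, 2, by norm_num, by norm_num⟩
    · exact ⟨3, 2, by norm_num, by norm_num⟩
    · exact ⟨4, 2, by norm_num, by norm_num⟩
    · exact ⟨-3, 0, by norm_num, by norm_num⟩
    · exact ⟨-2, 0, by norm_num, by norm_num⟩
    · exact ⟨-1, 0, by norm_num, by norm_num⟩
  obtain ⟨c, d, hc, hm⟩ := key ((M + 22 * N) % 52) (Int.emod_nonneg _ (by norm_num)) (Int.emod_lt_of_pos _ (by norm_num))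
  refine ⟨c, d, hc, ?_⟩
  omega

theorem Tl_cover (z : ℂ) : ∃ (k : Fin 4) (a b : ℤ), (52 : ℤ) ∣ a + 22 * b ∧ z ∈ Tl k a b := by
  obtain ⟨c, d, hc, hd⟩ := InC_ex ⌊z.re⌋ ⌊z.im⌋
  have x0 := Int.floor_le z.re
  have x1 := Int.lt_floor_add_one z.re
  have y0 := Int.floor_le z.im
  have y1 := Int.lt_floor_add_one z.im
  obtain ⟨x, hx⟩ : ∃ x, x = z.re - ((⌊z.re⌋ - c : ℤ) : ℝ) := ⟨_, rfl⟩
  obtain ⟨y, hy⟩ : ∃ y, y = z.im - ((⌊z.im⌋ - d : ℤ) : ℝ) := ⟨_, rfl⟩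
  have hx0 : (c : ℝ) ≤ x := by rw [hx]; push_cast; linarith
  have hx1 : x < c + 1 := by rw [hx]; push_cast; linarith
  have hy0 : (d : ℝ) ≤ y := by rw [hy]; push_cast; linarith
  have hy1 : y < d + 1 := by rw [hy]; push_cast; linarith
  have fin : ∀ k : Fin 4, TP k x y → ∃ (k : Fin 4) (a b : ℤ), (52 : ℤ) ∣ a + 22 * b ∧ z ∈ Tl k a b := by
    intro k hk
    refine ⟨k, _, _, hd, ?_⟩
    change TP k (z.re - ((⌊z.re⌋ - c : ℤ) : ℝ)) (z.im - ((⌊z.im⌋ - d : ℤ) : ℝ))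
    rw [← hx, ← hy]
    exact hk
  have cast : ∀ m n : ℤ, m ≤ n → (m : ℝ) ≤ n := fun m n h => by exact_mod_cast h
  rcases hc with ⟨h1, h2, h3, h4⟩ | ⟨h1, h2, h3, h4⟩ | ⟨h1, h2, h3, h4⟩ | ⟨h1, h2, h3, h4⟩ | ⟨h1, h2, h3, h4⟩
  · have g1 := cast _ _ h1
    have g2 := cast _ _ h2
    have g3 := cast _ _ h3
    have g4 := cast _ _ h4
    push_cast at g1 g2 g3 g4
    exact fin 0 (Or.inl ⟨by linarith, by linarith, by linarith, by linarith⟩)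
  · have g1 := cast _ _ h1
    have g2 := cast _ _ h2
    have g3 := cast _ _ h3
    have g4 := cast _ _ h4
    push_cast at g1 g2 g3 g4
    exact fin 1 (Or.inl ⟨by linarith, by linarith, by linarith, by linarith⟩)
  · have g1 := cast _ _ h1
    have g2 := cast _ _ h2
    have g3 := cast _ _ h3
    have g4 := cast _ _ h4
    push_cast at g1 g2 g3 g4
    exact fin 2 (Or.inl ⟨by linarith, by linarith, by linarith, by linarith⟩)
  · have g1 := cast _ _ h1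
    have g2 := cast _ _ h2
    have g3 := cast _ _ h3
    have g4 := cast _ _ h4
    push_cast at g1 g2 g3 g4
    exact fin 3 (Or.inl ⟨by linarith, by linarith, by linarith, by linarith⟩)
  · have g1 := cast _ _ h1
    have g2 := cast _ _ h2
    have g3 := cast _ _ h3
    have g4 := cast _ _ h4
    push_cast at g1 g2 g3 g4
    rcases le_total x y with hxy | hxy
    · rcases le_total y (2 - x) with h | h
      · exact fin 0 (Or.inr ⟨by linarith, hxy, h⟩)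
      · exact fin 3 (Or.inr ⟨by linarith, by linarith, hxy⟩)
    · rcases le_total y (2 - x) with h | h
      · exact fin 1 (Or.inr ⟨by linarith, h, hxy⟩)
      · exact fin 2 (Or.inr ⟨by linarith, hxy, by linarith⟩)

/-- A point off all the grid lines and diagonals. -/
def Gen (x y : ℝ) : Prop := ∀ n : ℤ, x ≠ n ∧ y ≠ n ∧ x - y ≠ n ∧ x + y ≠ n

theorem exists_gen {U : Set ℂ} (hU : IsOpen U) (hne : U.Nonempty) : ∃ z ∈ U, Gen z.re z.im := by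
  obtain ⟨w, hw⟩ := hne
  let B : Set ℝ := ⋃ n : ℤ, {t | w.re + t = n ∨ w.im + 2 * t = n ∨ w.re - w.im - t = n ∨ w.re + w.im + 3 * t = n}
  have hB : B.Countable := by
    apply countable_iUnion
    intro n
    apply Set.Finite.countable
    apply Set.Finite.subset (s := {(n : ℝ) - w.re, (n - w.im) / 2, w.re - w.im - n, (n - w.re - w.im) / 3})
      (by simp)
    rintro t (h | h | h | h)
    · left; linarith
    · right; left; linarith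
    · right; right; left; linarith
    · right; right; right; rw [mem_singleton_iff]; linarith
  have hd := hB.dense_compl ℝ
  have hcont : Continuous fun t : ℝ => w + ((t : ℂ) * ⟨1, 2⟩) := by fun_prop
  have hO : IsOpen ((fun t : ℝ => w + ((t : ℂ) * ⟨1, 2⟩)) ⁻¹' U) := hU.preimage hcont
  obtain ⟨t, ht, htB⟩ := hd.inter_open_nonempty _ hO ⟨0, by simpa using hw⟩
  refine ⟨_, ht, ?_⟩
  intro n
  have h1 : ¬ (w.re + t = n ∨ w.im + 2 * t = n ∨ w.re - w.im - t = n ∨ w.re + w.im + 3 * t = n) := by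
    intro h
    exact htB (mem_iUnion.2 ⟨n, h⟩)
  push Not at h1
  obtain ⟨h1, h2, h3, h4⟩ := h1
  refine ⟨?_, ?_, ?_, ?_⟩
  · simpa using h1
  · intro h; apply h2; rw [← h]; simp; ring
  · intro h; apply h3; rw [← h]; simp; ring
  · intro h; apply h4; rw [← h]; simp; ring

/-- The strict form of `TP`. -/
def TS (k : Fin 4) (x y : ℝ) : Prop :=
  match k with
  | 0 => (-3 < x ∧ x < 0 ∧ -2 < y ∧ y < 2) ∨ (0 < x ∧ x < y ∧ y < 2 - x)
  | 1 => (0 < x ∧ x < 4 ∧ -3 < y ∧ y < 0) ∨ (0 < y ∧ y < 2 - x ∧ y < x)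
  | 2 => (2 < x ∧ x < 5 ∧ 0 < y ∧ y < 4) ∨ (x < 2 ∧ y < x ∧ 2 - y < x)
  | 3 => (-2 < x ∧ x < 2 ∧ 2 < y ∧ y < 5) ∨ (y < 2 ∧ 2 - y < x ∧ x < y)

theorem strict {k : Fin 4} {x y : ℝ} (hg : Gen x y) (h : TP k x y) : TS k x y := by
  have g1 : ∀ n : ℤ, x ≠ n := fun n => (hg n).1
  have g2 : ∀ n : ℤ, y ≠ n := fun n => (hg n).2.1
  have g3 : x ≠ y := fun h => (hg 0).2.2.1 (by rw [h]; simp)
  have g4 : x + y ≠ 2 := fun h => (hg 2).2.2.2 (by rw [h]; simp)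
  have x0 : x ≠ 0 := by simpa using g1 0
  have x1 : x ≠ -3 := by simpa using g1 (-3)
  have x2 : x ≠ 4 := by simpa using g1 4
  have x3 : x ≠ 2 := by simpa using g1 2
  have x4 : x ≠ 5 := by simpa using g1 5
  have x5 : x ≠ -2 := by simpa using g1 (-2)
  have y0 : y ≠ 0 := by simpa using g2 0
  have y1 : y ≠ -3 := by simpa using g2 (-3)
  have y2 : y ≠ 4 := by simpa using g2 4
  have y3 : y ≠ 2 := by simpa using g2 2
  have y4 : y ≠ 5 := by simpa using g2 5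
  have y5 : y ≠ -2 := by simpa using g2 (-2)
  have s1 : y ≠ 2 - x := fun h => g4 (by linarith)
  have s2 : 2 - y ≠ x := fun h => g4 (by linarith)
  fin_cases k
  · rcases h with ⟨a, b, c, d⟩ | ⟨a, b, c⟩
    · exact Or.inl ⟨lt_of_le_of_ne a x1.symm, lt_of_le_of_ne b x0, lt_of_le_of_ne c y5.symm, lt_of_le_of_ne d y3⟩
    · exact Or.inr ⟨lt_of_le_of_ne a x0.symm, lt_of_le_of_ne b g3, lt_of_le_of_ne c s1⟩
  · rcases h with ⟨a, b, c, d⟩ | ⟨a, b, c⟩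
    · exact Or.inl ⟨lt_of_le_of_ne a x0.symm, lt_of_le_of_ne b x2, lt_of_le_of_ne c y1.symm, lt_of_le_of_ne d y0⟩
    · exact Or.inr ⟨lt_of_le_of_ne a y0.symm, lt_of_le_of_ne b s1, lt_of_le_of_ne c g3.symm⟩
  · rcases h with ⟨a, b, c, d⟩ | ⟨a, b, c⟩
    · exact Or.inl ⟨lt_of_le_of_ne a x3.symm, lt_of_le_of_ne b x4, lt_of_le_of_ne c y0.symm, lt_of_le_of_ne d y2⟩
    · exact Or.inr ⟨lt_of_le_of_ne a x3, lt_of_le_of_ne b g3.symm, lt_of_le_of_ne c s2⟩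
  · rcases h with ⟨a, b, c, d⟩ | ⟨a, b, c⟩
    · exact Or.inl ⟨lt_of_le_of_ne a x5.symm, lt_of_le_of_ne b x3, lt_of_le_of_ne c y3.symm, lt_of_le_of_ne d y4⟩
    · exact Or.inr ⟨lt_of_le_of_ne a y3, lt_of_le_of_ne b s2, lt_of_le_of_ne c g3⟩

theorem TS_cell {k : Fin 4} {x y : ℝ} (h : TS k x y) : InC ⌊x⌋ ⌊y⌋ := by
  have le : ∀ (n : ℤ) (t : ℝ), (n : ℝ) < t → n ≤ ⌊t⌋ := fun n t h => Int.le_floor.2 h.le
  have lt : ∀ (n : ℤ) (t : ℝ), t < n + 1 → ⌊t⌋ ≤ n := fun n t h => by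
    have : ⌊t⌋ < n + 1 := Int.floor_lt.2 (by push_cast; exact h)
    omega
  fin_cases k
  · rcases h with ⟨a, b, c, d⟩ | ⟨a, b, c⟩
    · exact Or.inl ⟨le _ _ (by push_cast; linarith), lt _ _ (by push_cast; linarith),
        le _ _ (by push_cast; linarith), lt _ _ (by push_cast; linarith)⟩
    · exact Or.inr (Or.inr (Or.inr (Or.inr ⟨le _ _ (by push_cast; linarith), lt _ _ (by push_cast; linarith),
        le _ _ (by push_cast; linarith), lt _ _ (by push_cast; linarith)⟩)))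
  · rcases h with ⟨a, b, c, d⟩ | ⟨a, b, c⟩
    · exact Or.inr (Or.inl ⟨le _ _ (by push_cast; linarith), lt _ _ (by push_cast; linarith),
        le _ _ (by push_cast; linarith), lt _ _ (by push_cast; linarith)⟩)
    · exact Or.inr (Or.inr (Or.inr (Or.inr ⟨le _ _ (by push_cast; linarith), lt _ _ (by push_cast; linarith),
        le _ _ (by push_cast; linarith), lt _ _ (by push_cast; linarith)⟩)))
  · rcases h with ⟨a, b, c, d⟩ | ⟨a, b, c⟩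
    · exact Or.inr (Or.inr (Or.inl ⟨le _ _ (by push_cast; linarith), lt _ _ (by push_cast; linarith),
        le _ _ (by push_cast; linarith), lt _ _ (by push_cast; linarith)⟩))
    · exact Or.inr (Or.inr (Or.inr (Or.inr ⟨le _ _ (by push_cast; linarith), lt _ _ (by push_cast; linarith),
        le _ _ (by push_cast; linarith), lt _ _ (by push_cast; linarith)⟩)))
  · rcases h with ⟨a, b, c, d⟩ | ⟨a, b, c⟩
    · exact Or.inr (Or.inr (Or.inr (Or.inl ⟨le _ _ (by push_cast; linarith), lt _ _ (by push_cast; linarith),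
        le _ _ (by push_cast; linarith), lt _ _ (by push_cast; linarith)⟩)))
    · exact Or.inr (Or.inr (Or.inr (Or.inr ⟨le _ _ (by push_cast; linarith), lt _ _ (by push_cast; linarith),
        le _ _ (by push_cast; linarith), lt _ _ (by push_cast; linarith)⟩)))

theorem TS_unique {k l : Fin 4} {x y : ℝ} (h : TS k x y) (h' : TS l x y) : k = l := by
  have h01 : TS 0 x y → TS 1 x y → False := by
    rintro (⟨a, b, c, d⟩ | ⟨a, b, c⟩) (⟨a', b', c', d'⟩ | ⟨a', b', c'⟩) <;> linarith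
  have h02 : TS 0 x y → TS 2 x y → False := by
    rintro (⟨a, b, c, d⟩ | ⟨a, b, c⟩) (⟨a', b', c', d'⟩ | ⟨a', b', c'⟩) <;> linarith
  have h03 : TS 0 x y → TS 3 x y → False := by
    rintro (⟨a, b, c, d⟩ | ⟨a, b, c⟩) (⟨a', b', c', d'⟩ | ⟨a', b', c'⟩) <;> linarith
  have h12 : TS 1 x y → TS 2 x y → False := by
    rintro (⟨a, b, c, d⟩ | ⟨a, b, c⟩) (⟨a', b', c', d'⟩ | ⟨a', b', c'⟩) <;> linarith
  have h13 : TS 1 x y → TS 3 x y → False := by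
    rintro (⟨a, b, c, d⟩ | ⟨a, b, c⟩) (⟨a', b', c', d'⟩ | ⟨a', b', c'⟩) <;> linarith
  have h23 : TS 2 x y → TS 3 x y → False := by
    rintro (⟨a, b, c, d⟩ | ⟨a, b, c⟩) (⟨a', b', c', d'⟩ | ⟨a', b', c'⟩) <;> linarith
  fin_cases k <;> fin_cases l
  · rfl
  · exact (h01 h h').elim
  · exact (h02 h h').elim
  · exact (h03 h h').elim
  · exact (h01 h' h).elim
  · rfl
  · exact (h12 h h').elim
  · exact (h13 h h').elim
  · exact (h02 h' h).elim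
  · exact (h12 h' h).elim
  · rfl
  · exact (h23 h h').elim
  · exact (h03 h' h).elim
  · exact (h13 h' h).elim
  · exact (h23 h' h).elim
  · rfl

theorem Tl_disj {k l : Fin 4} {a b c d : ℤ} (hab : (52 : ℤ) ∣ a + 22 * b) (hcd : (52 : ℤ) ∣ c + 22 * d)
    (hne : Tl k a b ≠ Tl l c d) : Disjoint (interior (Tl k a b)) (interior (Tl l c d)) := by
  rw [disjoint_iff_inter_eq_empty]
  by_contra hc
  rw [← Ne, ← nonempty_iff_ne_empty] at hc
  obtain ⟨z, ⟨h1, h2⟩, hg⟩ := exists_gen (isOpen_interior.inter isOpen_interior) hc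
  have m1 : z ∈ Tl k a b := interior_subset h1
  have m2 : z ∈ Tl l c d := interior_subset h2
  have k1 : TP k (z.re - a) (z.im - b) := m1
  have k2 : TP l (z.re - c) (z.im - d) := m2
  have gen : ∀ a b : ℤ, Gen (z.re - a) (z.im - b) := by
    intro a b n
    have e1 := (hg (n + a)).1
    have e2 := (hg (n + b)).2.1
    have e3 := (hg (n + a - b)).2.2.1
    have e4 := (hg (n + a + b)).2.2.2
    push_cast at e1 e2 e3 e4
    refine ⟨fun h => e1 (by linarith), fun h => e2 (by linarith), fun h => e3 (by linarith),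
      fun h => e4 (by linarith)⟩
  have s1 := strict (gen a b) k1
  have s2 := strict (gen c d) k2
  have c1 := TS_cell s1
  have c2 := TS_cell s2
  rw [Int.floor_sub_intCast, Int.floor_sub_intCast] at c1 c2
  obtain ⟨e1, e2⟩ := InC_inj c1 c2 (by
    obtain ⟨p, hp⟩ := hab
    obtain ⟨q, hq⟩ := hcd
    exact ⟨q - p, by linarith⟩)
  have ea : a = c := by omega
  have eb : b = d := by omega
  subst ea
  subst eb
  rw [TS_unique s1 s2] at hne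
  exact hne rfl

end Pool.Agent.R175.Hexa
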