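import Mathlib
import Pool.Agent.R175.Hexa.Tiling

/-!
# Pairs of far tiles in the tiling by copies of `P`
-/

set_option autoImplicit false

namespace Pool.Agent.R175.Hexa

open Set Complex ComplexConjugate Pool.Agent.R175.Disk

/-- The index lattice. -/
def L (a b : ℤ) : Prop := (52 : ℤ) ∣ a + 22 * b

theorem Tl_unique {k l : Fin 4} {a b c d : ℤ} (hab : L a b) (hcd : L c d) {z : ℂ} (hg : Gen z.re z.im)
    (m1 : z ∈ Tl k a b) (m2 : z ∈ Tl l c d) : k = l ∧ a = c ∧ b = d := by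
  have k1 : TP k (z.re - a) (z.im - b) := m1
  have k2 : TP l (z.re - c) (z.im - d) := m2
  have gen : ∀ a b : ℤ, Gen (z.re - a) (z.im - b) := by
    intro a b n
    have e1 := (hg (n + a)).1
    have e2 := (hg (n + b)).2.1
    have e3 := (hg (n + a - b)).2.2.1
    have e4 := (hg (n + a + b)).2.2.2
    push_cast at e1 e2 e3 e4
    refine ⟨fun h => e1 (by linarith), fun h => e2 (by linarith), fun h => e3 (by linarith),
      fun h => e4 (by linarith)⟩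
  have s1 := strict (gen a b) k1
  have s2 := strict (gen c d) k2
  have c1 := TS_cell s1
  have c2 := TS_cell s2
  rw [Int.floor_sub_intCast, Int.floor_sub_intCast] at c1 c2
  obtain ⟨e1, e2⟩ := InC_inj c1 c2 (by
    obtain ⟨p, hp⟩ := hab
    obtain ⟨q, hq⟩ := hcd
    exact ⟨q - p, by linarith⟩)
  have ea : a = c := by omega
  have eb : b = d := by omega
  subst ea
  subst eb
  exact ⟨TS_unique s1 s2, rfl, rfl⟩

/-- The pairs of the first kind. -/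
def PA (a b : ℤ) : Set ℂ := Tl 0 a b ∪ Tl 2 (a + 52) b

/-- The pairs of the second kind. -/
def PB (a b : ℤ) : Set ℂ := Tl 1 a b ∪ Tl 3 a (b + 52)

/-- The family of all pairs. -/
def pairs : Set (Set ℂ) := {S | ∃ a b : ℤ, L a b ∧ (S = PA a b ∨ S = PB a b)}

theorem pairs_countable : pairs.Countable := by
  have h1 := Set.countable_range (fun p : ℤ × ℤ => PA p.1 p.2)
  have h2 := Set.countable_range (fun p : ℤ × ℤ => PB p.1 p.2)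
  apply (h1.union h2).mono
  rintro S ⟨a, b, -, rfl | rfl⟩
  · exact Or.inl ⟨(a, b), rfl⟩
  · exact Or.inr ⟨(a, b), rfl⟩

theorem pairs_cover : ⋃₀ pairs = univ := by
  apply eq_univ_of_forall
  intro z
  obtain ⟨k, a, b, hab, hz⟩ := Tl_cover z
  fin_cases k
  · exact ⟨PA a b, ⟨a, b, hab, Or.inl rfl⟩, Or.inl hz⟩
  · exact ⟨PB a b, ⟨a, b, hab, Or.inr rfl⟩, Or.inl hz⟩
  · refine ⟨PA (a - 52) b, ⟨a - 52, b, ?_, Or.inl rfl⟩, Or.inr ?_⟩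
    · unfold L; omega
    · rw [sub_add_cancel]; exact hz
  · refine ⟨PB a (b - 52), ⟨a, b - 52, ?_, Or.inr rfl⟩, Or.inr ?_⟩
    · unfold L; omega
    · rw [sub_add_cancel]; exact hz

theorem pairs_disjoint {S T : Set ℂ} (hS : S ∈ pairs) (hT : T ∈ pairs) (hne : S ≠ T) :
    Disjoint (interior S) (interior T) := by
  rw [disjoint_iff_inter_eq_empty]
  by_contra hc
  rw [← Ne, ← nonempty_iff_ne_empty] at hc
  obtain ⟨z, ⟨h1, h2⟩, hg⟩ := exists_gen (isOpen_interior.inter isOpen_interior) hc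
  have m1 : z ∈ S := interior_subset h1
  have m2 : z ∈ T := interior_subset h2
  have sh1 : ∀ {a b : ℤ}, L a b → L (a + 52) b := fun h => by unfold L at *; omega
  have sh2 : ∀ {a b : ℤ}, L a b → L a (b + 52) := fun h => by unfold L at *; omega
  apply hne
  obtain ⟨a, b, hab, rfl | rfl⟩ := hS <;> obtain ⟨c, d, hcd, rfl | rfl⟩ := hT <;>
    rcases m1 with m1 | m1 <;> rcases m2 with m2 | m2
  · obtain ⟨-, rfl, rfl⟩ := Tl_unique hab hcd hg m1 m2; rfl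
  · obtain ⟨h, -⟩ := Tl_unique hab (sh1 hcd) hg m1 m2; simp at h
  · obtain ⟨h, -⟩ := Tl_unique (sh1 hab) hcd hg m1 m2; simp at h
  · obtain ⟨-, h, rfl⟩ := Tl_unique (sh1 hab) (sh1 hcd) hg m1 m2
    have : a = c := by omega
    rw [this]
  · obtain ⟨h, -⟩ := Tl_unique hab hcd hg m1 m2; simp at h
  · obtain ⟨h, -⟩ := Tl_unique hab (sh2 hcd) hg m1 m2; simp at h
  · obtain ⟨h, -⟩ := Tl_unique (sh1 hab) hcd hg m1 m2; simp at h
  · obtain ⟨h, -⟩ := Tl_unique (sh1 hab) (sh2 hcd) hg m1 m2; simp at h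
  · obtain ⟨h, -⟩ := Tl_unique hab hcd hg m1 m2; simp at h
  · obtain ⟨h, -⟩ := Tl_unique hab (sh1 hcd) hg m1 m2; simp at h
  · obtain ⟨h, -⟩ := Tl_unique (sh2 hab) hcd hg m1 m2; simp at h
  · obtain ⟨h, -⟩ := Tl_unique (sh2 hab) (sh1 hcd) hg m1 m2; simp at h
  · obtain ⟨-, rfl, rfl⟩ := Tl_unique hab hcd hg m1 m2; rfl
  · obtain ⟨h, -⟩ := Tl_unique hab (sh2 hcd) hg m1 m2; simp at h
  · obtain ⟨h, -⟩ := Tl_unique (sh2 hab) hcd hg m1 m2; simp at h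
  · obtain ⟨-, rfl, h⟩ := Tl_unique (sh2 hab) (sh2 hcd) hg m1 m2
    have : b = d := by omega
    rw [this]

/-! ### Half-turns -/

/-- The half-turn that exchanges `0` and `(p + 2, q + 2)`. -/
noncomputable def ht (p q : ℤ) : ℂ ≃ᵢ ℂ := GridTile.rt (-1) ⟨p + 2, q + 2⟩ (by simp)

theorem ht_image (p q : ℤ) (A : Set ℂ) : ht p q '' A = {z | (⟨p + 2 - z.re, q + 2 - z.im⟩ : ℂ) ∈ A} := by
  unfold ht
  rw [rt_image]
  ext z
  have e : conj (-1) * (z - ⟨p + 2, q + 2⟩) = (⟨p + 2 - z.re, q + 2 - z.im⟩ : ℂ) := by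
    apply Complex.ext <;> simp
  rw [mem_ofPred_eq, mem_ofPred_eq, e]

theorem ht_Tl0 (p q a b : ℤ) : ht p q '' Tl 0 a b = Tl 2 (p - a) (q - b) := by
  rw [ht_image]
  ext z
  change TP 0 (p + 2 - z.re - a) (q + 2 - z.im - b) ↔ TP 2 (z.re - ((p - a : ℤ) : ℝ)) (z.im - ((q - b : ℤ) : ℝ))
  simp only [TP]
  push_cast
  constructor
  · rintro (⟨h1, h2, h3, h4⟩ | ⟨h1, h2, h3⟩)
    · left; refine ⟨?_, ?_, ?_, ?_⟩ <;> linarith
    · right; refine ⟨?_, ?_, ?_⟩ <;> linarith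
  · rintro (⟨h1, h2, h3, h4⟩ | ⟨h1, h2, h3⟩)
    · left; refine ⟨?_, ?_, ?_, ?_⟩ <;> linarith
    · right; refine ⟨?_, ?_, ?_⟩ <;> linarith

theorem ht_Tl2 (p q a b : ℤ) : ht p q '' Tl 2 a b = Tl 0 (p - a) (q - b) := by
  rw [ht_image]
  ext z
  change TP 2 (p + 2 - z.re - a) (q + 2 - z.im - b) ↔ TP 0 (z.re - ((p - a : ℤ) : ℝ)) (z.im - ((q - b : ℤ) : ℝ))
  simp only [TP]
  push_cast
  constructor
  · rintro (⟨h1, h2, h3, h4⟩ | ⟨h1, h2, h3⟩)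
    · left; refine ⟨?_, ?_, ?_, ?_⟩ <;> linarith
    · right; refine ⟨?_, ?_, ?_⟩ <;> linarith
  · rintro (⟨h1, h2, h3, h4⟩ | ⟨h1, h2, h3⟩)
    · left; refine ⟨?_, ?_, ?_, ?_⟩ <;> linarith
    · right; refine ⟨?_, ?_, ?_⟩ <;> linarith

theorem ht_Tl1 (p q a b : ℤ) : ht p q '' Tl 1 a b = Tl 3 (p - a) (q - b) := by
  rw [ht_image]
  ext z
  change TP 1 (p + 2 - z.re - a) (q + 2 - z.im - b) ↔ TP 3 (z.re - ((p - a : ℤ) : ℝ)) (z.im - ((q - b : ℤ) : ℝ))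
  simp only [TP]
  push_cast
  constructor
  · rintro (⟨h1, h2, h3, h4⟩ | ⟨h1, h2, h3⟩)
    · left; refine ⟨?_, ?_, ?_, ?_⟩ <;> linarith
    · right; refine ⟨?_, ?_, ?_⟩ <;> linarith
  · rintro (⟨h1, h2, h3, h4⟩ | ⟨h1, h2, h3⟩)
    · left; refine ⟨?_, ?_, ?_, ?_⟩ <;> linarith
    · right; refine ⟨?_, ?_, ?_⟩ <;> linarith

theorem ht_Tl3 (p q a b : ℤ) : ht p q '' Tl 3 a b = Tl 1 (p - a) (q - b) := by
  rw [ht_image]
  ext z
  change TP 3 (p + 2 - z.re - a) (q + 2 - z.im - b) ↔ TP 1 (z.re - ((p - a : ℤ) : ℝ)) (z.im - ((q - b : ℤ) : ℝ))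
  simp only [TP]
  push_cast
  constructor
  · rintro (⟨h1, h2, h3, h4⟩ | ⟨h1, h2, h3⟩)
    · left; refine ⟨?_, ?_, ?_, ?_⟩ <;> linarith
    · right; refine ⟨?_, ?_, ?_⟩ <;> linarith
  · rintro (⟨h1, h2, h3, h4⟩ | ⟨h1, h2, h3⟩)
    · left; refine ⟨?_, ?_, ?_, ?_⟩ <;> linarith
    · right; refine ⟨?_, ?_, ?_⟩ <;> linarith

theorem ht_PA (p q a b : ℤ) : ht p q '' PA a b = PA (p - 52 - a) (q - b) := by
  unfold PA
  rw [image_union, ht_Tl0, ht_Tl2, union_comm]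
  congr 2 <;> ring

theorem ht_PB (p q a b : ℤ) : ht p q '' PB a b = PB (p - a) (q - 52 - b) := by
  unfold PB
  rw [image_union, ht_Tl1, ht_Tl3, union_comm]
  congr 2 <;> ring

theorem ht_pairs {p q : ℤ} (hpq : L p q) {S : Set ℂ} (hS : S ∈ pairs) : ht p q '' S ∈ pairs := by
  obtain ⟨a, b, hab, rfl | rfl⟩ := hS
  · refine ⟨_, _, ?_, Or.inl (ht_PA p q a b)⟩
    unfold L at *; omega
  · refine ⟨_, _, ?_, Or.inr (ht_PB p q a b)⟩
    unfold L at *; omega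

theorem ht_ht (p q : ℤ) (A : Set ℂ) : ht p q '' (ht p q '' A) = A := by
  rw [ht_image, ht_image]
  ext z
  rw [mem_ofPred_eq, mem_ofPred_eq]
  have e : (⟨p + 2 - (⟨p + 2 - z.re, q + 2 - z.im⟩ : ℂ).re, q + 2 - (⟨p + 2 - z.re, q + 2 - z.im⟩ : ℂ).im⟩ : ℂ) = z := by
    apply Complex.ext <;> simp
  rw [e]

theorem ht_sym {p q : ℤ} (hpq : L p q) : (fun T => ht p q '' T) '' pairs = pairs := by
  ext S
  constructor
  · rintro ⟨T, hT, rfl⟩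
    exact ht_pairs hpq hT
  · intro hS
    exact ⟨_, ht_pairs hpq hS, ht_ht p q S⟩

/-! ### Congruence -/

theorem tr_Tl (k : Fin 4) (a b c d : ℤ) : GridTile.rt 1 ⟨c, d⟩ (by simp) '' Tl k a b = Tl k (a + c) (b + d) := by
  rw [rt_image]
  ext z
  have e : conj 1 * (z - ⟨c, d⟩) = (⟨z.re - c, z.im - d⟩ : ℂ) := by
    apply Complex.ext <;> simp
  rw [mem_ofPred_eq, e]
  change TP k (z.re - c - a) (z.im - d - b) ↔ TP k (z.re - ((a + c : ℤ) : ℝ)) (z.im - ((b + d : ℤ) : ℝ))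
  push_cast
  rw [show z.re - c - a = z.re - (a + c) by ring, show z.im - d - b = z.im - (b + d) by ring]

theorem PA_cong (a b : ℤ) : ∃ g : ℂ ≃ᵢ ℂ, PA a b = g '' PA 0 0 := by
  refine ⟨GridTile.rt 1 ⟨a, b⟩ (by simp), ?_⟩
  unfold PA
  rw [image_union, tr_Tl, tr_Tl]
  congr 2 <;> ring

/-- The quarter turn about the centre of the cluster. -/
noncomputable def qt : ℂ ≃ᵢ ℂ := GridTile.rt I ⟨2, 0⟩ (by simp)

theorem qt_image (A : Set ℂ) : qt '' A = {z | (⟨z.im, 2 - z.re⟩ : ℂ) ∈ A} := by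
  unfold qt
  rw [rt_image]
  ext z
  have e : conj I * (z - ⟨2, 0⟩) = (⟨z.im, 2 - z.re⟩ : ℂ) := by
    apply Complex.ext <;> simp
  rw [mem_ofPred_eq, mem_ofPred_eq, e]

theorem qt_Tl0 : qt '' Tl 0 0 0 = Tl 1 0 0 := by
  rw [qt_image]
  ext z
  change TP 0 (z.im - ((0 : ℤ) : ℝ)) (2 - z.re - ((0 : ℤ) : ℝ)) ↔ TP 1 (z.re - ((0 : ℤ) : ℝ)) (z.im - ((0 : ℤ) : ℝ))
  simp only [TP]
  push_cast
  constructor
  · rintro (⟨h1, h2, h3, h4⟩ | ⟨h1, h2, h3⟩)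
    · left; refine ⟨?_, ?_, ?_, ?_⟩ <;> linarith
    · right; refine ⟨?_, ?_, ?_⟩ <;> linarith
  · rintro (⟨h1, h2, h3, h4⟩ | ⟨h1, h2, h3⟩)
    · left; refine ⟨?_, ?_, ?_, ?_⟩ <;> linarith
    · right; refine ⟨?_, ?_, ?_⟩ <;> linarith

theorem qt_Tl2 : qt '' Tl 2 52 0 = Tl 3 0 52 := by
  rw [qt_image]
  ext z
  change TP 2 (z.im - ((52 : ℤ) : ℝ)) (2 - z.re - ((0 : ℤ) : ℝ)) ↔ TP 3 (z.re - ((0 : ℤ) : ℝ)) (z.im - ((52 : ℤ) : ℝ))
  simp only [TP]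
  push_cast
  constructor
  · rintro (⟨h1, h2, h3, h4⟩ | ⟨h1, h2, h3⟩)
    · left; refine ⟨?_, ?_, ?_, ?_⟩ <;> linarith
    · right; refine ⟨?_, ?_, ?_⟩ <;> linarith
  · rintro (⟨h1, h2, h3, h4⟩ | ⟨h1, h2, h3⟩)
    · left; refine ⟨?_, ?_, ?_, ?_⟩ <;> linarith
    · right; refine ⟨?_, ?_, ?_⟩ <;> linarith

theorem qt_PA : qt '' PA 0 0 = PB 0 0 := by
  unfold PA PB
  rw [image_union]
  norm_num
  rw [qt_Tl0, qt_Tl2]

theorem PB_cong (a b : ℤ) : ∃ g : ℂ ≃ᵢ ℂ, PB a b = g '' PA 0 0 := by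
  refine ⟨GridTile.rt 1 ⟨a, b⟩ (by simp) * qt, ?_⟩
  have e : (GridTile.rt 1 ⟨a, b⟩ (by simp) * qt) '' PA 0 0 =
      GridTile.rt 1 ⟨a, b⟩ (by simp) '' (qt '' PA 0 0) := by
    rw [image_image]; rfl
  rw [e, qt_PA]
  unfold PB
  rw [image_union, tr_Tl, tr_Tl]
  congr 2 <;> ring

/-- The two parts of a pair are exchanged by a half-turn that preserves all pairs. -/
theorem swap_PA {a b : ℤ} (hab : L a b) : ∃ p q : ℤ, L p q ∧ ht p q '' Tl 0 a b = Tl 2 (a + 52) b ∧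
    ht p q '' Tl 2 (a + 52) b = Tl 0 a b := by
  refine ⟨2 * a + 52, 2 * b, ?_, ?_, ?_⟩
  · unfold L at *; omega
  · rw [ht_Tl0]; congr 1 <;> ring
  · rw [ht_Tl2]; congr 1 <;> ring

theorem swap_PB {a b : ℤ} (hab : L a b) : ∃ p q : ℤ, L p q ∧ ht p q '' Tl 1 a b = Tl 3 a (b + 52) ∧
    ht p q '' Tl 3 a (b + 52) = Tl 1 a b := by
  refine ⟨2 * a, 2 * b + 52, ?_, ?_, ?_⟩
  · unfold L at *; omega
  · rw [ht_Tl1]; congr 1 <;> ring
  · rw [ht_Tl3]; congr 1 <;> ring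

theorem PA_parts_disjoint (a b : ℤ) : Disjoint (Tl 0 a b) (Tl 2 (a + 52) b) := by
  rw [Set.disjoint_left]
  intro z h1 h2
  have k1 : TP 0 (z.re - a) (z.im - b) := h1
  have k2 : TP 2 (z.re - ((a + 52 : ℤ) : ℝ)) (z.im - b) := h2
  simp only [TP] at k1 k2
  push_cast at k2
  rcases k1 with ⟨h1, h2, h3, h4⟩ | ⟨h1, h2, h3⟩ <;> rcases k2 with ⟨g1, g2, g3, g4⟩ | ⟨g1, g2, g3⟩ <;> linarith

theorem PB_parts_disjoint (a b : ℤ) : Disjoint (Tl 1 a b) (Tl 3 a (b + 52)) := by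
  rw [Set.disjoint_left]
  intro z h1 h2
  have k1 : TP 1 (z.re - a) (z.im - b) := h1
  have k2 : TP 3 (z.re - a) (z.im - ((b + 52 : ℤ) : ℝ)) := h2
  simp only [TP] at k1 k2
  push_cast at k2
  rcases k1 with ⟨h1, h2, h3, h4⟩ | ⟨h1, h2, h3⟩ <;> rcases k2 with ⟨g1, g2, g3, g4⟩ | ⟨g1, g2, g3⟩ <;> linarith

end Pool.Agent.R175.Hexa
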